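import Pool.Agent.N888.TF.Frac

set_option autoImplicit false

/-!
# Linear programming duality for fractional list colourings
-/

namespace Pool.Agent.N888.TF

open Finset

theorem lin_sum {V : Type} [Fintype V] [DecidableEq V] (f : (V → ℝ) →L[ℝ] ℝ) (x : V → ℝ) :
    f x = ∑ v, x v * f (Pi.single v 1) := by
  have h := LinearMap.pi_apply_eq_sum_univ f.toLinearMap x
  simp only [ContinuousLinearMap.coe_coe, smul_eq_mul] at h
  rw [h]
  apply sum_congr rfl
  intro v _
  congr 2
  funext j
  rw [Pi.single_apply]
  by_cases hj : j = v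
  · subst hj; simp
  · rw [if_neg hj, if_neg (Ne.symm hj)]

theorem dual {V Ω : Type} [Fintype V] [Fintype Ω] {G : SimpleGraph V} {A : Ω → Finset V}
    {μ : Ω → ℝ} (hμ : ∀ ω, 0 ≤ μ ω) (S : Finset V)
    (hS : ¬ ∃ t, Ach G A μ t ∧ ∀ v ∈ S, 1 < t v) :
    ∃ w : V → ℝ, (∀ v ∈ S, 0 ≤ w v) ∧ (∃ v ∈ S, 0 < w v) ∧
      ∀ t, Ach G A μ t → (∀ v, v ∉ S → t v = 0) → ∑ v ∈ S, w v * t v ≤ ∑ v ∈ S, w v := by
  classical
  set s : Set (V → ℝ) := {t | ∀ v ∈ S, 1 < t v} with hs
  set r : Set (V → ℝ) := {t | Ach G A μ t} with hr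
  have c1 : Convex ℝ s := by
    intro x hx y hy a b ha hb hab v hv
    have h1 := hx v hv
    have h2 := hy v hv
    simp only [Pi.add_apply, Pi.smul_apply, smul_eq_mul]
    rcases eq_or_lt_of_le ha with h | h
    · rw [← h, zero_add] at hab
      rw [← h, hab]; linarith
    · nlinarith
  have o1 : IsOpen s := by
    have : s = ⋂ v ∈ S, {t : V → ℝ | 1 < t v} := by
      ext t; simp [hs]
    rw [this]
    apply isOpen_biInter_finset
    intro v _
    exact isOpen_lt continuous_const (continuous_apply v)
  have c2 : Convex ℝ r := by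
    intro x hx y hy a b ha hb hab
    exact ach_convex hx hy ha hb hab
  have d : Disjoint s r := by
    rw [Set.disjoint_left]
    intro t ht1 ht2
    exact hS ⟨t, ht2, ht1⟩
  obtain ⟨f, u, hf1, hf2⟩ := geometric_hahn_banach_open c1 o1 c2 d
  let w : V → ℝ := fun v => - f (Pi.single v 1)
  have hF : ∀ x : V → ℝ, f x = - ∑ v, x v * w v := by
    intro x
    rw [lin_sum f x, ← sum_neg_distrib]
    apply sum_congr rfl
    intro v _
    simp only [w]; ring
  have hsuppS : ∀ x : V → ℝ, (∀ v, v ∉ S → x v = 0) → f x = - ∑ v ∈ S, w v * x v := by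
    intro x hx
    rw [hF x]
    congr 1
    symm
    rw [← sum_subset (subset_univ S)]
    · apply sum_congr rfl; intro v _; ring
    · intro v _ hv; rw [hx v hv]; ring
  have hz : u ≤ 0 := by
    have := hf2 (fun _ => 0) (ach_zero hμ)
    rw [hsuppS _ (fun _ _ => rfl)] at this
    simpa using this
  have h1 : ∀ ε : ℝ, 0 < ε → - u < (1 + ε) * ∑ v ∈ S, w v := by
    intro ε hε
    have hmem : (fun v => if v ∈ S then 1 + ε else 0) ∈ s := by
      intro v hv; simp only [if_pos hv]; linarith
    have := hf1 _ hmem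
    rw [hsuppS _ (fun v hv => if_neg hv)] at this
    have e : ∑ v ∈ S, w v * (if v ∈ S then 1 + ε else 0) = (1 + ε) * ∑ v ∈ S, w v := by
      rw [mul_sum]
      apply sum_congr rfl
      intro v hv
      rw [if_pos hv]; ring
    rw [e] at this
    linarith
  have h1' : - u ≤ ∑ v ∈ S, w v := by
    by_contra hcon
    push Not at hcon
    set W := ∑ v ∈ S, w v with hW
    by_cases hW0 : W ≤ 0
    · have := h1 1 one_pos
      linarith
    · push Not at hW0
      have := h1 ((-u - W) / W) (div_pos (by linarith) hW0)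
      have e : (1 + (-u - W) / W) * W = - u := by field_simp; ring
      linarith
  have h2 : ∀ v ∈ S, 0 ≤ w v := by
    intro v hv
    by_contra hcon
    push Not at hcon
    set W := ∑ v ∈ S, w v with hW
    -- large multiple
    set lam : ℝ := (|2 * W| + |u| + 1) / (- w v) with hlam
    have hlam0 : 0 ≤ lam := div_nonneg (by positivity) (by linarith)
    have hmem : (fun x => if x ∈ S then (2 + if x = v then lam else 0) else 0) ∈ s := by
      intro x hx; simp only [if_pos hx]; split_ifs <;> linarith
    have := hf1 _ hmem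
    rw [hsuppS _ (fun v hv => if_neg hv)] at this
    have e : ∑ x ∈ S, w x * (if x ∈ S then (2 + if x = v then lam else 0) else 0) =
        2 * W + lam * w v := by
      have : ∀ x ∈ S, w x * (if x ∈ S then (2 + if x = v then lam else 0) else 0) =
          2 * w x + (if x = v then lam * w x else 0) := by
        intro x hx
        rw [if_pos hx]
        by_cases hxv : x = v
        · rw [if_pos hxv, if_pos hxv]; ring
        · rw [if_neg hxv, if_neg hxv]; ring
      rw [sum_congr rfl this, sum_add_distrib, ← mul_sum, sum_ite_eq', if_pos hv]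
    rw [e] at this
    have e2 : lam * w v = - (|2 * W| + |u| + 1) := by
      have hne : w v ≠ 0 := hcon.ne
      rw [hlam]; field_simp
    rw [e2] at this
    have := le_abs_self (2 * W)
    have := neg_abs_le u
    linarith
  refine ⟨w, h2, ?_, ?_⟩
  · by_contra hcon
    push Not at hcon
    have hW : ∑ v ∈ S, w v = 0 := by
      apply sum_eq_zero
      intro v hv
      exact le_antisymm (hcon v hv) (h2 v hv)
    have := h1 1 one_pos
    rw [hW] at this
    linarith
  · intro t ht ht0
    have := hf2 t ht
    rw [hsuppS t ht0] at this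
    linarith

end Pool.Agent.N888.TF
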