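import Pool.Agent.TH455.PlanarPack

set_option autoImplicit false

/-!
# Edges in no four-cycle improve the edge bound
-/

namespace Pool.Agent.N888.TF

open Finset
open Pool.Agent.TH455

theorem T6_free' {V : Type*} {G : SimpleGraph V} (W : Finset V)
    (h : ∀ a ∈ W, ∀ b ∈ W, ∀ c ∈ W, G.Adj a b → G.Adj a c → ¬ G.Adj b c) :
    T6 (gi G) W = 0 := by
  classical
  rw [T6_eq]
  unfold Lk
  apply sum_eq_zero
  intro a ha
  apply sum_eq_zero
  intro b hb
  apply sum_eq_zero
  intro c hc
  by_contra hne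
  have h1 : G.Adj a b := by
    by_contra hh; apply hne; rw [gi_nz hh]; ring
  have h2 : G.Adj a c := by
    by_contra hh; apply hne; rw [gi_nz hh]; ring
  have h3 : G.Adj b c := by
    by_contra hh; apply hne; rw [gi_nz hh]; ring
  exact h a ha b hb c hc h1 h2 h3

theorem contr_adj {V : Type*} {G : SimpleGraph V} {u v a b : V} (ha : a ≠ u) (hb : b ≠ u)
    (ha' : a ≠ v) (hb' : b ≠ v) : (contr G u v).Adj a b ↔ G.Adj a b := by
  constructor
  · rintro ⟨_, _, _, h | h | h⟩
    · exact h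
    · exact absurd h.1 ha
    · exact absurd h.1 hb
  · intro h
    exact ⟨h.ne, ha', hb', Or.inl h⟩

theorem contr_adj_left {V : Type*} {G : SimpleGraph V} {u v b : V} (huv : u ≠ v) (hb : b ≠ u)
    (hb' : b ≠ v) : (contr G u v).Adj u b ↔ (G.Adj u b ∨ G.Adj v b) := by
  constructor
  · rintro ⟨_, _, _, h | h | h⟩
    · exact Or.inl h
    · exact Or.inr h.2
    · exact absurd h.1 hb
  · intro h
    refine ⟨hb.symm, huv, hb', ?_⟩
    rcases h with h | h
    · exact Or.inl h
    · exact Or.inr (Or.inl ⟨rfl, h⟩)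

theorem I2_contr {V : Type*} [DecidableEq V] (G : SimpleGraph V) (W : Finset V) (u v : V)
    (hu : u ∈ W) (hv : v ∈ W) (huv : G.Adj u v)
    (hno : ∀ b ∈ W, ¬ (G.Adj u b ∧ G.Adj v b)) :
    I2 (gi G) W = I2 (gi (contr G u v)) (W.erase v) + 2 := by
  have hne : u ≠ v := huv.ne
  set W₀ := (W.erase u).erase v with hW₀
  have hu0 : u ∉ W₀ := by simp [hW₀]
  have hv0 : v ∉ W₀ := by simp [hW₀]
  have hW : insert u (insert v W₀) = W := split_two hu hv hne
  have hWv : W.erase v = insert u W₀ := by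
    ext x
    by_cases hx : x = v
    · subst hx; simp [hne.symm, hv0]
    · by_cases hx' : x = u
      · subst hx'; simp [hu, hx]
      · simp [hW₀, hx, hx']
  have e1 := I2_two (gi G) (gi_symm G) (gi_zero G) u v hne W₀ hu0 hv0
  rw [hW] at e1
  have e2 := I2_insert (gi (contr G u v)) (gi_symm _) (gi_zero _) u W₀ hu0
  have hmemu : ∀ b ∈ W₀, b ≠ u := by rintro b hb rfl; exact hu0 hb
  have hmemv : ∀ b ∈ W₀, b ≠ v := by rintro b hb rfl; exact hv0 hb
  have cW : ∀ a ∈ W₀, ∀ b ∈ W₀, ((contr G u v).Adj a b ↔ G.Adj a b) := fun a ha b hb =>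
    contr_adj (hmemu a ha) (hmemu b hb) (hmemv a ha) (hmemv b hb)
  have hdeg : ∑ b ∈ W₀, gi (contr G u v) u b = ∑ b ∈ W₀, gi G u b + ∑ b ∈ W₀, gi G v b := by
    rw [← sum_add_distrib]
    apply sum_congr rfl
    intro b hb
    have hbW : b ∈ W := mem_of_mem_erase (mem_of_mem_erase hb)
    have h1 : gi (contr G u v) u b = ind (G.Adj u b ∨ G.Adj v b) :=
      ind_congr (contr_adj_left hne (hmemu b hb) (hmemv b hb))
    rw [h1]
    have := hno b hbW
    by_cases h2 : G.Adj u b
    · by_cases h3 : G.Adj v b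
      · exact absurd ⟨h2, h3⟩ this
      · rw [gi_one h2, gi_nz h3, ind_pos (Or.inl h2)]
    · by_cases h3 : G.Adj v b
      · rw [gi_nz h2, gi_one h3, ind_pos (Or.inr h3)]
      · rw [gi_nz h2, gi_nz h3, ind_neg (by tauto)]
  rw [hWv, e2, hdeg, I2_congr cW, e1, gi_one huv]
  ring

theorem matching_bound {V : Type} [DecidableEq V] : ∀ (k : ℕ) (G : SimpleGraph V) (W : Finset V)
    (M : Finset (V × V)), M.card = k → 4 + k ≤ W.card →
    (∀ a ∈ W, ∀ b ∈ W, ∀ c ∈ W, G.Adj a b → G.Adj a c → ¬ G.Adj b c) →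
    ¬ Minor r5 G (W : Set V) → ¬ Minor r33 G (W : Set V) →
    (∀ p ∈ M, p.1 ∈ W ∧ p.2 ∈ W ∧ G.Adj p.1 p.2) →
    (∀ p ∈ M, ∀ a ∈ W, ∀ b ∈ W, G.Adj p.1 a → G.Adj p.2 b → a ≠ p.2 → b ≠ p.1 → ¬ G.Adj a b) →
    (∀ p ∈ M, ∀ q ∈ M, p ≠ q → ∀ x, (x = p.1 ∨ x = p.2) → ∀ y, (y = q.1 ∨ y = q.2) →
      x ≠ y ∧ ¬ G.Adj x y) →
    I2 (gi G) W + 2 * k + 8 ≤ 4 * W.card := by
  intro k
  induction k with
  | zero =>
    intro G W M hM hcard htf hm5 hm33 _ _ _
    have h := bound G W (by omega) hm5 hm33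
    unfold Good at h
    rw [T6_free' W htf] at h
    omega
  | succ k ih =>
    intro G W M hM hcard htf hm5 hm33 hedge hno4 hind
    obtain ⟨p, hp⟩ : M.Nonempty := by rw [← card_pos]; omega
    obtain ⟨hu, hv, huv⟩ := hedge p hp
    set u := p.1 with hu_def
    set v := p.2 with hv_def
    have hne : u ≠ v := huv.ne
    have hno : ∀ b ∈ W, ¬ (G.Adj u b ∧ G.Adj v b) := by
      rintro b hb ⟨h1, h2⟩
      exact htf b hb u hu v hv h1.symm h2.symm huv
    have hI := I2_contr G W u v hu hv huv hno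
    have hc : (W.erase v).card + 1 = W.card := card_erase_add_one hv
    have hcoe : ((W.erase v : Finset V) : Set V) = (W : Set V) \ {v} := by simp
    -- other matching edges
    have hoth : ∀ q ∈ M.erase p, ∀ x, (x = q.1 ∨ x = q.2) →
        x ≠ u ∧ x ≠ v ∧ ¬ G.Adj x u ∧ ¬ G.Adj x v ∧ x ∈ W := by
      intro q hq x hx
      obtain ⟨hq1, hq2⟩ := mem_erase.1 hq
      have h1 := hind q hq2 p hp hq1 x hx u (Or.inl rfl)
      have h2 := hind q hq2 p hp hq1 x hx v (Or.inr rfl)
      refine ⟨h1.1, h2.1, h1.2, h2.2, ?_⟩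
      rcases hx with rfl | rfl
      · exact (hedge q hq2).1
      · exact (hedge q hq2).2.1
    have key := ih (contr G u v) (W.erase v) (M.erase p) (by rw [card_erase_of_mem hp, hM]; rfl)
      (by omega) ?_ ?_ ?_ ?_ ?_ ?_
    · omega
    · -- triangle-free
      have aux : ∀ b ∈ W, ∀ c ∈ W, b ≠ u → b ≠ v → c ≠ u → c ≠ v →
          (G.Adj u b ∨ G.Adj v b) → (G.Adj u c ∨ G.Adj v c) → ¬ G.Adj b c := by
        intro b hb c hc hbu hbv hcu hcv h1 h2 hbc
        rcases h1 with h1 | h1 <;> rcases h2 with h2 | h2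
        · exact htf u hu b hb c hc h1 h2 hbc
        · exact hno4 p hp b hb c hc h1 h2 hbv hcu hbc
        · exact hno4 p hp c hc b hb h2 h1 hcv hbu hbc.symm
        · exact htf v hv b hb c hc h1 h2 hbc
      intro a ha b hb c hc hab hac hbc
      obtain ⟨hav, haW⟩ := mem_erase.1 ha
      obtain ⟨hbv, hbW⟩ := mem_erase.1 hb
      obtain ⟨hcv, hcW⟩ := mem_erase.1 hc
      by_cases hau : a = u
      · subst hau
        have hbu : b ≠ u := hab.ne.symm
        have hcu : c ≠ u := hac.ne.symm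
        rw [contr_adj_left hne hbu hbv] at hab
        rw [contr_adj_left hne hcu hcv] at hac
        rw [contr_adj hbu hcu hbv hcv] at hbc
        exact aux b hbW c hcW hbu hbv hcu hcv hab hac hbc
      · by_cases hbu : b = u
        · subst hbu
          have hcu : c ≠ u := hbc.ne.symm
          have hba := hab.symm
          rw [contr_adj_left hne hau hav] at hba
          rw [contr_adj_left hne hcu hcv] at hbc
          rw [contr_adj hau hcu hav hcv] at hac
          exact aux a haW c hcW hau hav hcu hcv hba hbc hac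
        · by_cases hcu : c = u
          · subst hcu
            have hca := hac.symm
            have hcb := hbc.symm
            rw [contr_adj_left hne hau hav] at hca
            rw [contr_adj_left hne hbu hbv] at hcb
            rw [contr_adj hau hbu hav hbv] at hab
            exact aux a haW b hbW hau hav hbu hbv hca hcb hab
          · rw [contr_adj hau hbu hav hbv] at hab
            rw [contr_adj hau hcu hav hcv] at hac
            rw [contr_adj hbu hcu hbv hcv] at hbc
            exact htf a haW b hbW c hcW hab hac hbc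
    · intro h
      rw [hcoe] at h
      exact hm5 (minor_contr G u v _ (mem_coe.mpr hv) huv h)
    · intro h
      rw [hcoe] at h
      exact hm33 (minor_contr G u v _ (mem_coe.mpr hv) huv h)
    · intro q hq
      obtain ⟨a1, a2, a3, a4, a5⟩ := hoth q hq q.1 (Or.inl rfl)
      obtain ⟨b1, b2, b3, b4, b5⟩ := hoth q hq q.2 (Or.inr rfl)
      refine ⟨mem_erase.2 ⟨a2, a5⟩, mem_erase.2 ⟨b2, b5⟩, ?_⟩
      rw [contr_adj a1 b1 a2 b2]
      exact (hedge q (mem_of_mem_erase hq)).2.2
    · intro q hq a ha b hb hqa hqb haq hbq hab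
      obtain ⟨a1, a2, a3, a4, a5⟩ := hoth q hq q.1 (Or.inl rfl)
      obtain ⟨b1, b2, b3, b4, b5⟩ := hoth q hq q.2 (Or.inr rfl)
      obtain ⟨hav, haW⟩ := mem_erase.1 ha
      obtain ⟨hbv, hbW⟩ := mem_erase.1 hb
      have hau : a ≠ u := by
        rintro rfl
        have h := hqa.symm
        rw [contr_adj_left hne a1 a2] at h
        rcases h with h | h
        · exact a3 h.symm
        · exact a4 h.symm
      have hbu : b ≠ u := by
        rintro rfl
        have h := hqb.symm
        rw [contr_adj_left hne b1 b2] at h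
        rcases h with h | h
        · exact b3 h.symm
        · exact b4 h.symm
      rw [contr_adj a1 hau a2 hav] at hqa
      rw [contr_adj b1 hbu b2 hbv] at hqb
      rw [contr_adj hau hbu hav hbv] at hab
      exact hno4 q (mem_of_mem_erase hq) a haW b hbW hqa hqb haq hbq hab
    · intro q hq q' hq' hqq' x hx y hy
      obtain ⟨a1, a2, a3, a4, a5⟩ := hoth q hq x hx
      obtain ⟨b1, b2, b3, b4, b5⟩ := hoth q' hq' y hy
      rw [contr_adj a1 b1 a2 b2]
      exact hind q (mem_of_mem_erase hq) q' (mem_of_mem_erase hq') hqq' x hx y hy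

end Pool.Agent.N888.TF
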