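import Pool.Agent.N888.TF.Crit
import Pool.Agent.N888.TF.Match

set_option autoImplicit false

/-!
# Four-cycles in almost 4-regular triangle-free planar graphs
-/

namespace Pool.Agent.N888.TF

open Finset
open Pool.Agent.TH455

/-- a four-cycle in `D` -/
structure C4 {V : Type} (G : SimpleGraph V) (D : Finset V) (a b c d : V) : Prop where
  ha : a ∈ D
  hb : b ∈ D
  hc : c ∈ D
  hd : d ∈ D
  ab : G.Adj a b
  bc : G.Adj b c
  cd : G.Adj c d
  da : G.Adj d a
  ac : a ≠ c
  bd : b ≠ d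

open Classical in
/-- closed neighbourhood in `S` -/
noncomputable def nb {V : Type} (G : SimpleGraph V) (S X : Finset V) : Finset V :=
  X ∪ X.biUnion (fun x => S.filter (fun y => G.Adj x y))

theorem mem_nb {V : Type} {G : SimpleGraph V} {S X : Finset V} {y : V} :
    y ∈ nb G S X ↔ y ∈ X ∨ ∃ x ∈ X, y ∈ S ∧ G.Adj x y := by
  classical
  unfold nb
  simp only [mem_union, mem_biUnion, mem_filter]

theorem dg_card {V : Type} (G : SimpleGraph V) (S : Finset V) (x : V) [DecidablePred (G.Adj x)] :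
    dg G x S = (S.filter (fun y => G.Adj x y)).card := by
  unfold dg
  rw [card_filter]
  apply sum_congr rfl
  intro y _
  unfold gi
  rw [ind_ite]

theorem nb_card {V : Type} (G : SimpleGraph V) (S X : Finset V) :
    (nb G S X).card ≤ X.card + ∑ x ∈ X, dg G x S := by
  classical
  unfold nb
  refine (card_union_le _ _).trans ?_
  apply Nat.add_le_add_left
  refine card_biUnion_le.trans ?_
  apply sum_le_sum
  intro x _
  rw [dg_card]

theorem dg_le_card {V : Type} (G : SimpleGraph V) (S : Finset V) (x : V) : dg G x S ≤ S.card := by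
  classical
  rw [dg_card]
  exact card_filter_le _ _

theorem I2_dg {V : Type} (G : SimpleGraph V) (S : Finset V) :
    I2 (gi G) S = ∑ v ∈ S, dg G v S := rfl

theorem four_cycles {V : Type} [DecidableEq V] (G : SimpleGraph V) (S : Finset V) (out : V → ℕ)
    (htf : ∀ a ∈ S, ∀ b ∈ S, ∀ c ∈ S, G.Adj a b → G.Adj a c → ¬ G.Adj b c)
    (hm5 : ¬ Minor r5 G (S : Set V)) (hm33 : ¬ Minor r33 G (S : Set V)) (hne : S.Nonempty)
    (h4 : ∀ v ∈ S, 4 ≤ dg G v S + out v)
    (hE : 1000 * ∑ v ∈ S, (dg G v S + 2 * out v) ≤ 4002 * S.card)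
    (D : Finset V) (hD : D = S.filter (fun v => out v = 0 ∧ dg G v S = 4)) :
    ∃ a b c d a' b' c' d' z : V, C4 G D a b c d ∧ C4 G D a' b' c' d' ∧ z ∈ S ∧
      Disjoint ({a, b, c, d} : Finset V) {a', b', c', d'} ∧
      z ∉ ({a, b, c, d} : Finset V) ∧ z ∉ ({a', b', c', d'} : Finset V) := by
  classical
  set n := S.card with hn
  have hnpos : 0 < n := card_pos.2 hne
  -- excess
  let h : V → ℕ := fun v => dg G v S + out v - 4
  have hh : ∀ v ∈ S, dg G v S + out v = 4 + h v := by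
    intro v hv; have := h4 v hv; simp only [h]; omega
  have hsum : ∑ v ∈ S, (dg G v S + 2 * out v) = 4 * n + (∑ v ∈ S, h v + ∑ v ∈ S, out v) := by
    have : ∀ v ∈ S, dg G v S + 2 * out v = 4 + (h v + out v) := by
      intro v hv; have := hh v hv; omega
    rw [sum_congr rfl this, sum_add_distrib, sum_add_distrib, sum_const, smul_eq_mul]
    ring
  have hsmall : 1000 * (∑ v ∈ S, h v + ∑ v ∈ S, out v) ≤ 2 * n := by omega
  have hn4 : 4 ≤ n := by
    by_contra hcon
    push Not at hcon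
    have : ∀ v ∈ S, 1 ≤ out v := by
      intro v hv
      have h1 := h4 v hv
      have h2 := dg_le_card G S v
      omega
    have h2 : n ≤ ∑ v ∈ S, out v := by
      have := card_nsmul_le_sum S out 1 this
      simpa using this
    omega
  have hdsum : ∑ v ∈ S, dg G v S + ∑ v ∈ S, out v = 4 * n + ∑ v ∈ S, h v := by
    rw [← sum_add_distrib, sum_congr rfl hh, sum_add_distrib, sum_const, smul_eq_mul]
    ring
  have hsp := matching_bound 0 G S ∅ rfl (by omega) htf hm5 hm33 (by simp) (by simp) (by simp)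
  rw [I2_dg] at hsp
  have hn2000 : 4000 ≤ n := by omega
  -- the exceptional set
  set N := S.filter (fun v => ¬ (out v = 0 ∧ dg G v S = 4)) with hN
  have hNS : N ⊆ S := filter_subset _ _
  have hNcard : N.card ≤ ∑ v ∈ S, h v + ∑ v ∈ S, out v := by
    rw [← sum_add_distrib]
    have h1 : N.card ≤ ∑ v ∈ N, (h v + out v) := by
      have : ∀ v ∈ N, 1 ≤ h v + out v := by
        intro v hv
        obtain ⟨hvS, hv2⟩ := mem_filter.1 hv
        have := hh v hvS
        by_contra hcon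
        apply hv2
        constructor <;> omega
      simpa using card_nsmul_le_sum N _ 1 this
    exact h1.trans (sum_le_sum_of_subset hNS)
  have hNdeg : ∑ v ∈ N, dg G v S ≤ 4 * N.card + ∑ v ∈ S, h v := by
    have h1 : ∑ v ∈ N, dg G v S ≤ ∑ v ∈ N, (4 + h v) := by
      apply sum_le_sum
      intro v hv
      have := hh v (hNS hv)
      omega
    have h2 : ∑ v ∈ N, (4 + h v) = 4 * N.card + ∑ v ∈ N, h v := by
      rw [sum_add_distrib, sum_const, smul_eq_mul]; ring
    have h3 : ∑ v ∈ N, h v ≤ ∑ v ∈ S, h v := sum_le_sum_of_subset hNS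
    omega
  have hDmem : ∀ v, v ∈ D ↔ v ∈ S ∧ out v = 0 ∧ dg G v S = 4 := by
    intro v; rw [hD, mem_filter]
  have hSD : ∀ v ∈ S, v ∉ N → v ∈ D := by
    intro v hv hvN
    rw [hDmem]
    refine ⟨hv, ?_⟩
    by_contra hcon
    exact hvN (mem_filter.2 ⟨hv, hcon⟩)
  -- reduction to: no four-cycle outside a small set
  by_contra hfail
  obtain ⟨Q, hQD, hQ4, hQno⟩ : ∃ Q : Finset V, Q ⊆ D ∧ Q.card ≤ 4 ∧
      ∀ a b c d, C4 G D a b c d → ¬ (a ∉ Q ∧ b ∉ Q ∧ c ∉ Q ∧ d ∉ Q) := by
    by_cases hex : ∃ a b c d, C4 G D a b c d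
    · obtain ⟨a, b, c, d, hC⟩ := hex
      refine ⟨{a, b, c, d}, ?_, card_le_four, ?_⟩
      · intro x hx
        simp only [mem_insert, mem_singleton] at hx
        rcases hx with rfl | rfl | rfl | rfl
        · exact hC.ha
        · exact hC.hb
        · exact hC.hc
        · exact hC.hd
      · rintro a' b' c' d' hC' ⟨h1, h2, h3, h4⟩
        obtain ⟨z, hz⟩ : ∃ z, z ∈ S \ (({a, b, c, d} : Finset V) ∪ {a', b', c', d'}) := by
          apply card_pos.1
          have e1 := le_card_sdiff (({a, b, c, d} : Finset V) ∪ {a', b', c', d'}) S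
          have e2 := card_union_le ({a, b, c, d} : Finset V) {a', b', c', d'}
          have e3 : ({a, b, c, d} : Finset V).card ≤ 4 := card_le_four
          have e4 : ({a', b', c', d'} : Finset V).card ≤ 4 := card_le_four
          omega
        rw [mem_sdiff, mem_union, not_or] at hz
        refine hfail ⟨a, b, c, d, a', b', c', d', z, hC, hC', hz.1, ?_, hz.2.1, hz.2.2⟩
        rw [disjoint_right]
        intro x hx
        simp only [mem_insert, mem_singleton] at hx
        rcases hx with rfl | rfl | rfl | rfl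
        · exact h1
        · exact h2
        · exact h3
        · exact h4
    · push Not at hex
      exact ⟨∅, empty_subset _, by simp, fun a b c d hC => absurd hC (hex a b c d)⟩
  set Z := N ∪ Q with hZ
  have hDS : D ⊆ S := by rw [hD]; exact filter_subset _ _
  have hZS : Z ⊆ S := union_subset hNS (hQD.trans hDS)
  have hZcard : Z.card ≤ N.card + 4 := (card_union_le _ _).trans (by omega)
  have hQdeg : ∑ v ∈ Q, dg G v S ≤ 16 := by
    have : ∀ v ∈ Q, dg G v S ≤ 4 := fun v hv => ((hDmem v).1 (hQD hv)).2.2.le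
    have h1 := sum_le_card_nsmul Q _ 4 this
    rw [smul_eq_mul] at h1
    omega
  have hZdeg : ∑ v ∈ Z, dg G v S ≤ ∑ v ∈ N, dg G v S + 16 := by
    have h1 : ∑ v ∈ Z, dg G v S + ∑ v ∈ N ∩ Q, dg G v S = ∑ v ∈ N, dg G v S + ∑ v ∈ Q, dg G v S :=
      sum_union_inter
    omega
  have hZD : ∀ v ∈ S, v ∉ Z → v ∈ D ∧ v ∉ Q := by
    intro v hv hvZ
    rw [hZ, mem_union, not_or] at hvZ
    exact ⟨hSD v hv hvZ.1, hvZ.2⟩
  set Z1 := nb G S Z with hZ1
  have hZ1S : Z1 ⊆ S := by
    intro x hx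
    rcases mem_nb.1 hx with hx | ⟨_, _, hx, _⟩
    · exact hZS hx
    · exact hx
  have hZ1card : Z1.card ≤ Z.card + ∑ v ∈ Z, dg G v S := nb_card G S Z
  have hZ1deg : ∑ v ∈ Z1, dg G v S ≤ ∑ v ∈ Z, dg G v S + 4 * Z1.card := by
    have hZZ1 : Z ⊆ Z1 := fun x hx => mem_nb.2 (Or.inl hx)
    rw [← sum_sdiff hZZ1]
    have h1 : ∑ v ∈ Z1 \ Z, dg G v S ≤ (Z1 \ Z).card • 4 := by
      apply sum_le_card_nsmul
      intro v hv
      rw [mem_sdiff] at hv
      have := hZD v (hZ1S hv.1) hv.2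
      exact ((hDmem v).1 this.1).2.2.le
    have h2 : (Z1 \ Z).card ≤ Z1.card := card_le_card sdiff_subset
    rw [smul_eq_mul] at h1
    omega
  set Z2 := nb G S Z1 with hZ2
  have hZ2card : Z2.card ≤ Z1.card + ∑ v ∈ Z1, dg G v S := nb_card G S Z1
  -- greedy matching
  have greedy : ∀ k : ℕ, 1000 * k ≤ n + 1000 → ∃ M : Finset (V × V), M.card = k ∧
      (∀ p ∈ M, p.1 ∈ S ∧ p.2 ∈ S ∧ G.Adj p.1 p.2 ∧ p.1 ∉ Z1 ∧ p.2 ∉ Z1) ∧
      (∀ p ∈ M, ∀ q ∈ M, p ≠ q → ∀ x, (x = p.1 ∨ x = p.2) → ∀ y, (y = q.1 ∨ y = q.2) →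
        x ≠ y ∧ ¬ G.Adj x y) := by
    intro k
    induction k with
    | zero => intro _; exact ⟨∅, rfl, by simp, by simp⟩
    | succ k ih =>
      intro hk
      obtain ⟨M, hM, hM1, hM2⟩ := ih (by omega)
      set VM := M.image Prod.fst ∪ M.image Prod.snd with hVM
      have hVMmem : ∀ x, x ∈ VM ↔ ∃ p ∈ M, x = p.1 ∨ x = p.2 := by
        intro x
        simp only [hVM, mem_union, mem_image]
        constructor
        · rintro (⟨p, hp, rfl⟩ | ⟨p, hp, rfl⟩)
          · exact ⟨p, hp, Or.inl rfl⟩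
          · exact ⟨p, hp, Or.inr rfl⟩
        · rintro ⟨p, hp, rfl | rfl⟩
          · exact Or.inl ⟨p, hp, rfl⟩
          · exact Or.inr ⟨p, hp, rfl⟩
      have hVMcard : VM.card ≤ 2 * k := by
        have h1 : VM.card ≤ (M.image Prod.fst).card + (M.image Prod.snd).card := by
          rw [hVM]; exact card_union_le _ _
        have h2 : (M.image Prod.fst).card ≤ M.card := card_image_le
        have h3 : (M.image Prod.snd).card ≤ M.card := card_image_le
        omega
      have hVMS : ∀ x ∈ VM, x ∈ S ∧ x ∉ Z1 := by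
        intro x hx
        obtain ⟨p, hp, rfl | rfl⟩ := (hVMmem x).1 hx
        · exact ⟨(hM1 p hp).1, (hM1 p hp).2.2.2.1⟩
        · exact ⟨(hM1 p hp).2.1, (hM1 p hp).2.2.2.2⟩
      have hnotZ : ∀ x ∈ S, x ∉ Z1 → x ∉ Z := fun x _ h1 h2 => h1 (mem_nb.2 (Or.inl h2))
      set B := nb G S VM with hB
      have hBD : ∀ x ∈ B, x ∈ S ∧ dg G x S = 4 := by
        intro x hx
        rcases mem_nb.1 hx with hx | ⟨y, hy, hxS, hadj⟩
        · obtain ⟨h1, h2⟩ := hVMS x hx
          exact ⟨h1, ((hDmem x).1 (hZD x h1 (hnotZ x h1 h2)).1).2.2⟩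
        · obtain ⟨h1, h2⟩ := hVMS y hy
          have hxZ : x ∉ Z := fun h => h2 (mem_nb.2 (Or.inr ⟨x, h, h1, hadj.symm⟩))
          exact ⟨hxS, ((hDmem x).1 (hZD x hxS hxZ).1).2.2⟩
      have hBcard : B.card ≤ 10 * k := by
        have h1 : B.card ≤ VM.card + ∑ x ∈ VM, dg G x S := nb_card G S VM
        have h2 : ∑ x ∈ VM, dg G x S ≤ VM.card • 4 := by
          apply sum_le_card_nsmul
          intro x hx
          exact (hBD x (mem_nb.2 (Or.inl hx))).2.le
        rw [smul_eq_mul] at h2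
        omega
      set B2 := nb G S B with hB2
      have hB2card : B2.card ≤ 50 * k := by
        have h1 : B2.card ≤ B.card + ∑ x ∈ B, dg G x S := nb_card G S B
        have h2 : ∑ x ∈ B, dg G x S ≤ B.card • 4 := by
          apply sum_le_card_nsmul
          intro x hx
          exact (hBD x hx).2.le
        rw [smul_eq_mul] at h2
        omega
      obtain ⟨x, hx⟩ : ∃ x, x ∈ S \ (Z2 ∪ B2) := by
        apply card_pos.1
        have e1 := le_card_sdiff (Z2 ∪ B2) S
        have e2 := card_union_le Z2 B2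
        omega
      rw [mem_sdiff, mem_union, not_or] at hx
      obtain ⟨hxS, hxZ2, hxB2⟩ := hx
      have hxZ1 : x ∉ Z1 := fun h => hxZ2 (mem_nb.2 (Or.inl h))
      have hxB : x ∉ B := fun h => hxB2 (mem_nb.2 (Or.inl h))
      have hxD := (hDmem x).1 (hZD x hxS (hnotZ x hxS hxZ1)).1
      obtain ⟨y, hy, hgy⟩ : ∃ y ∈ S, gi G x y ≠ 0 := by
        by_contra hno
        push Not at hno
        have : dg G x S = 0 := sum_eq_zero hno
        omega
      have hxy : G.Adj x y := by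
        by_contra hcon; exact hgy (gi_nz hcon)
      have hyZ1 : y ∉ Z1 := fun h => hxZ2 (mem_nb.2 (Or.inr ⟨y, h, hxS, hxy.symm⟩))
      have hyB : y ∉ B := fun h => hxB2 (mem_nb.2 (Or.inr ⟨y, h, hxS, hxy.symm⟩))
      have hfar : ∀ z, (z = x ∨ z = y) → ∀ p ∈ M, ∀ t, (t = p.1 ∨ t = p.2) →
          z ≠ t ∧ ¬ G.Adj z t := by
        intro z hz p hp t ht
        have htV : t ∈ VM := (hVMmem t).2 ⟨p, hp, ht⟩
        have hzB : z ∉ B := by rcases hz with rfl | rfl; exacts [hxB, hyB]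
        have hzS : z ∈ S := by rcases hz with rfl | rfl; exacts [hxS, hy]
        constructor
        · rintro rfl; exact hzB (mem_nb.2 (Or.inl htV))
        · intro hadj; exact hzB (mem_nb.2 (Or.inr ⟨t, htV, hzS, hadj.symm⟩))
      have hnew : (x, y) ∉ M := by
        intro hmem
        exact (hfar x (Or.inl rfl) _ hmem x (Or.inl rfl)).1 rfl
      refine ⟨insert (x, y) M, by rw [card_insert_of_notMem hnew, hM], ?_, ?_⟩
      · intro p hp
        rcases mem_insert.1 hp with rfl | hp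
        · exact ⟨hxS, hy, hxy, hxZ1, hyZ1⟩
        · exact hM1 p hp
      · intro p hp q hq hpq s hs t ht
        rcases mem_insert.1 hp with rfl | hp' <;> rcases mem_insert.1 hq with rfl | hq'
        · exact absurd rfl hpq
        · exact hfar s hs q hq' t ht
        · have := hfar t ht p hp' s hs
          exact ⟨this.1.symm, fun h => this.2 h.symm⟩
        · exact hM2 p hp' q hq' hpq s hs t ht
  obtain ⟨M, hM, hM1, hM2⟩ := greedy (n / 1000 + 1) (by omega)
  have hfin := matching_bound (n / 1000 + 1) G S M hM (by omega) htf hm5 hm33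
    (fun p hp => ⟨(hM1 p hp).1, (hM1 p hp).2.1, (hM1 p hp).2.2.1⟩) ?_ hM2
  · rw [I2_dg] at hfin
    omega
  · intro p hp a ha b hb hpa hpb hap hbp hab
    obtain ⟨h1, h2, h3, h4', h5⟩ := hM1 p hp
    have g1 : p.1 ∉ Z := fun h => h4' (mem_nb.2 (Or.inl h))
    have g2 : p.2 ∉ Z := fun h => h5 (mem_nb.2 (Or.inl h))
    have g3 : a ∉ Z := fun h => h4' (mem_nb.2 (Or.inr ⟨a, h, h1, hpa.symm⟩))
    have g4 : b ∉ Z := fun h => h5 (mem_nb.2 (Or.inr ⟨b, h, h2, hpb.symm⟩))
    have k1 := hZD _ h1 g1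
    have k2 := hZD _ h2 g2
    have k3 := hZD _ ha g3
    have k4 := hZD _ hb g4
    exact hQno p.1 p.2 b a ⟨k1.1, k2.1, k4.1, k3.1, h3, hpb, hab.symm, hpa.symm,
      hbp.symm, hap.symm⟩ ⟨k1.2, k2.2, k4.2, k3.2⟩

end Pool.Agent.N888.TF
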