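import Mathlib

set_option autoImplicit false

/-!
# Fractional list colourings: achievable vectors
-/

namespace Pool.Agent.N888.TF

open Finset

open Classical in
/-- real indicator of a proposition -/
noncomputable def bi (p : Prop) : ℝ := if p then 1 else 0

theorem bi_pos {p : Prop} (h : p) : bi p = 1 := by unfold bi; exact if_pos h
theorem bi_neg {p : Prop} (h : ¬ p) : bi p = 0 := by unfold bi; exact if_neg h
theorem bi_nonneg (p : Prop) : 0 ≤ bi p := by
  by_cases h : p
  · rw [bi_pos h]; norm_num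
  · rw [bi_neg h]
theorem bi_le_one (p : Prop) : bi p ≤ 1 := by
  by_cases h : p
  · rw [bi_pos h]
  · rw [bi_neg h]; norm_num
theorem bi_congr {p q : Prop} (h : p ↔ q) : bi p = bi q := by
  by_cases hp : p
  · rw [bi_pos hp, bi_pos (h.1 hp)]
  · rw [bi_neg hp, bi_neg (fun hq => hp (h.2 hq))]

/-- `t` is the vector of measures of a fractional list colouring: the colours are `Ω` with weights
`μ`, the colour `ω` is in the lists of the vertices of `A ω`, and each colour is distributed over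
independent subsets of `A ω`. -/
def Ach {V Ω : Type} (G : SimpleGraph V) (A : Ω → Finset V) (μ : Ω → ℝ) (t : V → ℝ) : Prop :=
  ∃ (J : Type) (_ : Fintype J) (y : J → ℝ) (c : J → Ω) (I : J → Finset V),
    (∀ j, 0 ≤ y j) ∧ (∀ ω, ∑ j, y j * bi (c j = ω) = μ ω) ∧
    (∀ j, I j ⊆ A (c j)) ∧ (∀ j, ∀ u ∈ I j, ∀ v ∈ I j, ¬ G.Adj u v) ∧
    (∀ v, ∑ j, y j * bi (v ∈ I j) = t v)

section
variable {V Ω : Type} {G : SimpleGraph V} {A : Ω → Finset V} {μ : Ω → ℝ}

theorem Ach.nonneg {t : V → ℝ} (h : Ach G A μ t) (v : V) : 0 ≤ t v := by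
  obtain ⟨J, _, y, c, I, h1, h2, h3, h4, h5⟩ := h
  rw [← h5 v]
  exact sum_nonneg (fun j _ => mul_nonneg (h1 j) (bi_nonneg _))

theorem ach_zero [Fintype Ω] (hμ : ∀ ω, 0 ≤ μ ω) : Ach G A μ (fun _ => 0) := by
  classical
  refine ⟨Ω, inferInstance, μ, id, fun _ => ∅, hμ, ?_, ?_, ?_, ?_⟩
  · intro ω
    simp only [id]
    rw [sum_eq_single ω]
    · rw [bi_pos rfl, mul_one]
    · intro b _ hb; rw [bi_neg hb, mul_zero]
    · intro h; exact absurd (mem_univ _) h
  · intro j; simp
  · intro j u hu; simp at hu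
  · intro v
    apply sum_eq_zero
    intro j _
    rw [bi_neg (by simp), mul_zero]

theorem ach_convex {t1 t2 : V → ℝ} (h1 : Ach G A μ t1) (h2 : Ach G A μ t2) {a b : ℝ}
    (ha : 0 ≤ a) (hb : 0 ≤ b) (hab : a + b = 1) : Ach G A μ (fun v => a * t1 v + b * t2 v) := by
  obtain ⟨J1, _, y1, c1, I1, p1, p2, p3, p4, p5⟩ := h1
  obtain ⟨J2, _, y2, c2, I2, q1, q2, q3, q4, q5⟩ := h2
  refine ⟨J1 ⊕ J2, inferInstance, Sum.elim (fun j => a * y1 j) (fun j => b * y2 j),
    Sum.elim c1 c2, Sum.elim I1 I2, ?_, ?_, ?_, ?_, ?_⟩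
  · rintro (j | j)
    · exact mul_nonneg ha (p1 j)
    · exact mul_nonneg hb (q1 j)
  · intro ω
    rw [Fintype.sum_sum_type]
    simp only [Sum.elim_inl, Sum.elim_inr]
    simp only [mul_assoc]
    rw [← mul_sum, ← mul_sum, p2, q2, ← add_mul, hab, one_mul]
  · rintro (j | j)
    · exact p3 j
    · exact q3 j
  · rintro (j | j)
    · exact p4 j
    · exact q4 j
  · intro v
    rw [Fintype.sum_sum_type]
    simp only [Sum.elim_inl, Sum.elim_inr]
    simp only [mul_assoc]
    rw [← mul_sum, ← mul_sum, p5, q5]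

theorem ach_erase {t : V → ℝ} (h : Ach G A μ t) (u : V) :
    Ach G A μ (fun v => t v * bi (v ≠ u)) := by
  classical
  obtain ⟨J, _, y, c, I, p1, p2, p3, p4, p5⟩ := h
  refine ⟨J, inferInstance, y, c, fun j => (I j).erase u, p1, p2, ?_, ?_, ?_⟩
  · intro j; exact (erase_subset _ _).trans (p3 j)
  · intro j x hx z hz; exact p4 j x (mem_of_mem_erase hx) z (mem_of_mem_erase hz)
  · intro v
    simp only
    rw [← p5 v, sum_mul]
    apply sum_congr rfl
    intro j _
    by_cases hv : v = u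
    · rw [bi_neg (not_not.2 hv), mul_zero, bi_neg (by simp [hv]), mul_zero]
    · rw [bi_pos hv, mul_one]
      congr 1
      exact bi_congr (by simp [hv])

theorem ach_thin {t : V → ℝ} (h : Ach G A μ t) (u : V) {r : ℝ} (h0 : 0 ≤ r) (h1 : r ≤ t u) :
    Ach G A μ (fun v => t v * bi (v ≠ u) + r * bi (v = u)) := by
  by_cases ht : t u = 0
  · have hr : r = 0 := le_antisymm (h1.trans ht.le) h0
    rw [hr]
    simpa using ach_erase h u
  · have htp : 0 < t u := lt_of_le_of_ne (h.nonneg u) (Ne.symm ht)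
    have := ach_convex h (ach_erase h u) (a := r / t u) (b := 1 - r / t u)
      (div_nonneg h0 htp.le) (by rw [sub_nonneg, div_le_one htp]; exact h1) (by ring)
    convert this using 2 with v
    by_cases hv : v = u
    · rw [bi_neg (not_not.2 hv), bi_pos hv, hv]; field_simp; ring
    · rw [bi_pos hv, bi_neg hv]; ring

/-- achievable vectors are closed downwards -/
theorem ach_mono [Fintype V] {t t' : V → ℝ} (h : Ach G A μ t) (h0 : ∀ v, 0 ≤ t' v)
    (h1 : ∀ v, t' v ≤ t v) : Ach G A μ t' := by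
  classical
  have key : ∀ F : Finset V, Ach G A μ (fun v => if v ∈ F then t' v else t v) := by
    intro F
    induction F using Finset.induction_on with
    | empty => simpa using h
    | insert u F hu ih =>
      have := ach_thin ih u (r := t' u) (h0 u) (by simp only [if_neg hu]; exact h1 u)
      convert this using 2 with v
      by_cases hv : v = u
      · subst hv; rw [bi_neg (not_not.2 rfl), bi_pos rfl]; simp
      · rw [bi_pos hv, bi_neg hv]; simp [hv]
  have := key univ
  simpa using this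

/-- greedy extension by an independent set -/
theorem ach_ext [Fintype V] [Fintype Ω] {t : V → ℝ} (h : Ach G A μ t) (P : Finset V)
    (hP : ∀ u ∈ P, ∀ v ∈ P, ¬ G.Adj u v) :
    ∃ t' : V → ℝ, Ach G A μ t' ∧ (∀ v, v ∉ P → t' v = t v) ∧
      ∀ v ∈ P, (∑ ω, μ ω * bi (v ∈ A ω)) - (∑ u, t u * bi (G.Adj v u)) ≤ t' v := by
  classical
  obtain ⟨J, _, y, c, I, p1, p2, p3, p4, p5⟩ := h
  let I' : J → Finset V := fun j => I j ∪ P.filter (fun v => v ∈ A (c j) ∧ ∀ u ∈ I j, ¬ G.Adj v u)
  have hI' : ∀ j v, v ∈ I' j ↔ v ∈ I j ∨ (v ∈ P ∧ v ∈ A (c j) ∧ ∀ u ∈ I j, ¬ G.Adj v u) := by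
    intro j v; simp only [I', mem_union, mem_filter]
  refine ⟨fun v => ∑ j, y j * bi (v ∈ I' j), ⟨J, inferInstance, y, c, I', p1, p2, ?_, ?_,
    fun v => rfl⟩, ?_, ?_⟩
  · intro j v hv
    rcases (hI' j v).1 hv with h | h
    · exact p3 j h
    · exact h.2.1
  · intro j u hu v hv hadj
    rcases (hI' j u).1 hu with h | h <;> rcases (hI' j v).1 hv with h' | h'
    · exact p4 j u h v h' hadj
    · exact h'.2.2 u h hadj.symm
    · exact h.2.2 v h' hadj
    · exact hP u h.1 v h'.1 hadj
  · intro v hv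
    simp only
    rw [← p5 v]
    apply sum_congr rfl
    intro j _
    congr 1
    exact bi_congr (by rw [hI']; tauto)
  · intro v hv
    simp only
    have e1 : ∑ ω, μ ω * bi (v ∈ A ω) = ∑ j, y j * bi (v ∈ A (c j)) := by
      have : ∀ ω, μ ω * bi (v ∈ A ω) = ∑ j, y j * bi (v ∈ A (c j)) * bi (c j = ω) := by
        intro ω
        rw [← p2 ω, sum_mul]
        apply sum_congr rfl
        intro j _
        by_cases hc : c j = ω
        · rw [hc]; ring
        · rw [bi_neg hc]; ring
      rw [sum_congr rfl (fun ω _ => this ω), sum_comm]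
      apply sum_congr rfl
      intro j _
      rw [← mul_sum, sum_eq_single (c j)]
      · rw [bi_pos rfl, mul_one]
      · intro b _ hb; exact bi_neg (fun h => hb h.symm)
      · intro h; exact absurd (mem_univ _) h
    have e2 : ∑ u, t u * bi (G.Adj v u) = ∑ j, ∑ u, y j * bi (u ∈ I j) * bi (G.Adj v u) := by
      rw [sum_comm]
      apply sum_congr rfl
      intro u _
      rw [← p5 u, sum_mul]
    rw [e1, e2, ← sum_sub_distrib]
    apply sum_le_sum
    intro j _
    have hnn : ∀ u, 0 ≤ y j * bi (u ∈ I j) * bi (G.Adj v u) := fun u =>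
      mul_nonneg (mul_nonneg (p1 j) (bi_nonneg _)) (bi_nonneg _)
    have hn : 0 ≤ ∑ u, y j * bi (u ∈ I j) * bi (G.Adj v u) := sum_nonneg (fun u _ => hnn u)
    have hy := p1 j
    by_cases hb : v ∈ I' j
    · rw [bi_pos hb]
      have := mul_le_mul_of_nonneg_left (bi_le_one (v ∈ A (c j))) hy
      linarith
    · rw [bi_neg hb]
      by_cases ha : v ∈ A (c j)
      · have : ∃ u ∈ I j, G.Adj v u := by
          by_contra hcon
          push Not at hcon
          exact hb ((hI' j v).2 (Or.inr ⟨hv, ha, hcon⟩))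
        obtain ⟨u, hu, hadj⟩ := this
        have hle : y j * bi (u ∈ I j) * bi (G.Adj v u) ≤
            ∑ u, y j * bi (u ∈ I j) * bi (G.Adj v u) :=
          single_le_sum (f := fun u => y j * bi (u ∈ I j) * bi (G.Adj v u))
            (fun u _ => hnn u) (mem_univ u)
        rw [bi_pos hadj, bi_pos hu] at hle
        rw [bi_pos ha]
        linarith
      · rw [bi_neg ha]; linarith

end

end Pool.Agent.N888.TF
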