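import Pool.Agent.N888.TF.Main

set_option autoImplicit false

/-!
# Greedy colouring from `4m` colours, planar drawings
-/

namespace Pool.Agent.N888.TF

open Finset
open Pool.Agent.TH455
open Pool.Agent.Helper805.CHS (K5Model K33Model IsDrawing no_K5Model no_K33Model)

theorem greedy {V : Type} [Fintype V] (G : SimpleGraph V) (hsp : Sparse (gi G)) (m : ℕ)
    (L : V → Finset ℕ) (hL : ∀ v, 4 * m ≤ (L v).card) :
    ∃ f : V → Finset ℕ, (∀ v, f v ⊆ L v ∧ (f v).card = m) ∧
      ∀ u v, G.Adj u v → Disjoint (f u) (f v) := by
  classical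
  have key : ∀ n : ℕ, ∀ S : Finset V, S.card = n → ∃ f : V → Finset ℕ,
      (∀ v ∈ S, f v ⊆ L v ∧ (f v).card = m) ∧
      ∀ u ∈ S, ∀ v ∈ S, G.Adj u v → Disjoint (f u) (f v) := by
    intro n
    induction n with
    | zero =>
      intro S hS
      rw [card_eq_zero] at hS
      subst hS
      exact ⟨fun _ => ∅, by simp, by simp⟩
    | succ n ih =>
      intro S hS
      have hSne : S.Nonempty := by rw [← card_pos]; omega
      obtain ⟨v, hv, hd⟩ : ∃ v ∈ S, dg G v S ≤ 3 := by
        by_contra hcon
        push Not at hcon
        have h1 := card_nsmul_le_sum S (fun v => dg G v S) 4 (fun v hv => hcon v hv)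
        have h2 : ∑ v ∈ S, dg G v S + 4 ≤ 4 * S.card := hsp S hSne
        rw [smul_eq_mul] at h1
        omega
      obtain ⟨f, hf1, hf2⟩ := ih (S.erase v) (by rw [card_erase_of_mem hv, hS]; rfl)
      set bad := ((S.erase v).filter (fun u => G.Adj v u)).biUnion f with hbad
      have hbc : bad.card ≤ 3 * m := by
        refine card_biUnion_le.trans ?_
        have e3 := sum_le_card_nsmul ((S.erase v).filter (fun u => G.Adj v u))
          (fun u => (f u).card) m (fun u hu => (hf1 u (mem_filter.1 hu).1).2.le)
        rw [smul_eq_mul, ← dg_card, dg_erase_self] at e3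
        exact e3.trans (Nat.mul_le_mul_right _ hd)
      have hav : m ≤ (L v \ bad).card := by
        have h1 : (L v).card - bad.card ≤ (L v \ bad).card := le_card_sdiff bad (L v)
        have h2 := hL v
        omega
      obtain ⟨z, hz1, hz2⟩ := exists_subset_card_eq hav
      have hzd : ∀ u ∈ S.erase v, G.Adj v u → Disjoint z (f u) := by
        intro u hu hvu
        rw [disjoint_left]
        intro x hx hx'
        exact (mem_sdiff.1 (hz1 hx)).2 (mem_biUnion.2 ⟨u, mem_filter.2 ⟨hu, hvu⟩, hx'⟩)
      refine ⟨Function.update f v z, ?_, ?_⟩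
      · intro u hu
        by_cases huv : u = v
        · subst huv
          rw [Function.update_self]
          exact ⟨hz1.trans sdiff_subset, hz2⟩
        · rw [Function.update_of_ne huv]
          exact hf1 u (mem_erase.2 ⟨huv, hu⟩)
      · intro u hu w hw huw
        by_cases huv : u = v
        · subst huv
          have hwu : w ≠ u := huw.ne.symm
          rw [Function.update_self, Function.update_of_ne hwu]
          exact hzd w (mem_erase.2 ⟨hwu, hw⟩) huw
        · by_cases hwv : w = v
          · subst hwv
            rw [Function.update_self, Function.update_of_ne huv]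
            exact (hzd u (mem_erase.2 ⟨huv, hu⟩) huw.symm).symm
          · rw [Function.update_of_ne huv, Function.update_of_ne hwv]
            exact hf2 u (mem_erase.2 ⟨huv, hu⟩) w (mem_erase.2 ⟨hwv, hw⟩) huw
  obtain ⟨f, h1, h2⟩ := key (univ : Finset V).card univ rfl
  exact ⟨f, fun v => h1 v (mem_univ v), fun u v => h2 u (mem_univ u) v (mem_univ v)⟩

/-- A graph is planar if its vertices are distinct points of the plane and its edges are injective
arcs joining their ends, which contain no other vertex and meet only in common ends. -/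
def IsPlanar {V : Type} (G : SimpleGraph V) : Prop :=
  ∃ (p : V → ℝ × ℝ) (γ : V → V → unitInterval → ℝ × ℝ),
    Function.Injective p ∧
    (∀ u v, G.Adj u v → Continuous (γ u v) ∧ Function.Injective (γ u v) ∧
      γ u v 0 = p u ∧ γ u v 1 = p v ∧ ∀ z t, γ u v t = p z → z = u ∨ z = v) ∧
    (∀ u v x y, G.Adj u v → G.Adj x y → s(u, v) ≠ s(x, y) →
      ∀ s t, γ u v s = γ x y t → γ u v s = p u ∨ γ u v s = p v)

theorem noKMinor_of_planar {V : Type} {G : SimpleGraph V} (h : IsPlanar G) : NoKMinor G := by
  obtain ⟨p, γ, hp, h1, h2⟩ := h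
  let e := Complex.equivRealProdCLM.symm
  have hD : IsDrawing G (fun i => e (p i)) (fun u v t => e (γ u v t)) := by
    refine ⟨e.injective.comp hp, ?_, ?_, ?_, ?_, ?_⟩
    · intro u v huv
      exact e.continuous.comp (h1 u v huv).1
    · intro u v huv
      simp only [(h1 u v huv).2.2.1]
    · intro u v huv
      simp only [(h1 u v huv).2.2.2.1]
    · intro u v huv z t he
      exact (h1 u v huv).2.2.2.2 z t (e.injective he)
    · intro u v w x huv hwx huw hux _ _ t s he
      have hne' : s(u, v) ≠ s(w, x) := by
        intro h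
        rcases Sym2.eq_iff.mp h with ⟨h1, _⟩ | ⟨h1, _⟩
        · exact huw h1
        · exact hux h1
      rcases h2 u v w x huv hwx hne' t s (e.injective he) with h | h
      · exact Or.inl (congrArg e h)
      · exact Or.inr (congrArg e h)
  exact noKMinor_of_models (no_K5Model hD) (no_K33Model hD)

end Pool.Agent.N888.TF
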