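import Pool.Agent.N888.TF.Four
import Pool.Agent.Helper805.CHS.Density

set_option autoImplicit false

/-!
# Partition of planar graphs of bounded degree into small pieces with few edges between them
-/

namespace Pool.Agent.N888.TF

open Finset
open Pool.Agent.TH455
open Pool.Agent.Helper805.CHS (K5Model density)

theorem dens {V : Type} [Finite V] (G : SimpleGraph V) (h5 : ¬ K5Model G) (Q : Finset V)
    (A : V → Set V) (hc : ∀ a ∈ Q, (G.induce (A a)).Connected)
    (hd : ∀ a ∈ Q, ∀ b ∈ Q, a ≠ b → Disjoint (A a) (A b)) (E : Finset (V × V))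
    (hE : ∀ e ∈ E, e.1 ∈ Q ∧ e.2 ∈ Q ∧ e.1 ≠ e.2 ∧ ∃ x ∈ A e.1, ∃ y ∈ A e.2, G.Adj x y) :
    E.card ≤ 14 * Q.card := by
  classical
  set f : {e // e ∈ E} → {a // a ∈ Q} × {a // a ∈ Q} := fun e =>
    (⟨e.1.1, (hE e.1 e.2).1⟩, ⟨e.1.2, (hE e.1 e.2).2.1⟩) with hf
  have hinj : Function.Injective f := by
    intro e e' h
    obtain ⟨h1, h2⟩ := Prod.mk.inj h
    apply Subtype.ext
    exact Prod.ext (Subtype.ext_iff.1 h1) (Subtype.ext_iff.1 h2)
  have h1 := density G h5 (ι := {a // a ∈ Q}) (fun a => A a.1) (fun a => hc a.1 a.2)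
    (fun a b hab => hd a.1 a.2 b.1 b.2 (fun h => hab (Subtype.ext h))) (E.attach.image f) (by
      intro e he
      obtain ⟨e', _, rfl⟩ := mem_image.1 he
      refine ⟨fun h => (hE e'.1 e'.2).2.2.1 (Subtype.ext_iff.1 h), (hE e'.1 e'.2).2.2.2⟩)
  rw [card_image_of_injective _ hinj, card_attach] at h1
  have h2 : Fintype.card {a // a ∈ Q} = Q.card := Fintype.card_coe Q
  rw [h2] at h1
  exact h1

theorem count_sub {V : Type} [DecidableEq V] (Λ : Finset V) (a b : V) (ha : a ∈ Λ) (hb : b ∈ Λ)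
    (hab : a ≠ b) : 2 ^ Λ.card ≤ 4 * (Λ.powerset.filter (fun R => a ∈ R ∧ b ∉ R)).card := by
  set Λ' := (Λ.erase a).erase b with hΛ'
  have h1 : Λ'.card + 1 = (Λ.erase a).card := card_erase_add_one (mem_erase.2 ⟨hab.symm, hb⟩)
  have h2 : (Λ.erase a).card + 1 = Λ.card := card_erase_add_one ha
  have h3 : Λ'.powerset.card ≤ (Λ.powerset.filter (fun R => a ∈ R ∧ b ∉ R)).card := by
    apply card_le_card_of_injOn (fun X => insert a X)
    · intro X hX
      have hX' := mem_powerset.1 (mem_coe.1 hX)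
      simp only [coe_filter, Set.mem_ofPred_eq, mem_powerset]
      refine ⟨?_, mem_insert_self _ _, ?_⟩
      · intro x hx
        rcases mem_insert.1 hx with rfl | hx
        · exact ha
        · exact mem_of_mem_erase (mem_of_mem_erase (hX' hx))
      · intro h
        rcases mem_insert.1 h with h | h
        · exact hab h.symm
        · exact (mem_erase.1 (hX' h)).1 rfl
    · intro X hX Y hY hXY
      have hX' := mem_powerset.1 (mem_coe.1 hX)
      have hY' := mem_powerset.1 (mem_coe.1 hY)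
      have haX : a ∉ X := fun h => (mem_erase.1 (mem_of_mem_erase (hX' h))).1 rfl
      have haY : a ∉ Y := fun h => (mem_erase.1 (mem_of_mem_erase (hY' h))).1 rfl
      simp only at hXY
      rw [← erase_insert haX, ← erase_insert haY, hXY]
  rw [card_powerset] at h3
  have h4 : Λ.card = Λ'.card + 2 := by omega
  rw [h4, pow_add]
  omega

theorem exists_cut {V : Type} [DecidableEq V] (Λ : Finset V) (p : V → V) (h : V → ℕ)
    (hp : ∀ a ∈ Λ, p a ∈ Λ ∧ p a ≠ a) :
    ∃ R ⊆ Λ, ∑ a ∈ Λ, h a ≤ 4 * ∑ a ∈ Λ.filter (fun a => a ∈ R ∧ p a ∉ R), h a := by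
  by_contra hcon
  push Not at hcon
  have h1 : ∑ R ∈ Λ.powerset, 4 * ∑ a ∈ Λ.filter (fun a => a ∈ R ∧ p a ∉ R), h a <
      ∑ _R ∈ Λ.powerset, ∑ a ∈ Λ, h a := by
    apply sum_lt_sum_of_nonempty
    · exact ⟨∅, empty_mem_powerset _⟩
    · intro R hR
      exact hcon R (mem_powerset.1 hR)
  rw [sum_const, card_powerset, smul_eq_mul, ← mul_sum] at h1
  have h2 : ∑ R ∈ Λ.powerset, ∑ a ∈ Λ.filter (fun a => a ∈ R ∧ p a ∉ R), h a =
      ∑ a ∈ Λ, (Λ.powerset.filter (fun R => a ∈ R ∧ p a ∉ R)).card * h a := by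
    simp only [sum_filter]
    rw [sum_comm]
    apply sum_congr rfl
    intro a _
    rw [← sum_filter, sum_const, smul_eq_mul]
  rw [h2] at h1
  have h3 : 2 ^ Λ.card * ∑ a ∈ Λ, h a ≤
      4 * ∑ a ∈ Λ, (Λ.powerset.filter (fun R => a ∈ R ∧ p a ∉ R)).card * h a := by
    rw [mul_sum, mul_sum]
    apply sum_le_sum
    intro a ha
    rw [← mul_assoc]
    apply Nat.mul_le_mul_right
    exact count_sub Λ a (p a) ha (hp a ha).1 (hp a ha).2.symm
  omega

section
variable {V : Type} [DecidableEq V]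

/-- cluster of label `a` -/
def cl (U : Finset V) (lab : V → V) (a : V) : Finset V := U.filter (fun v => lab v = a)

theorem mem_cl {U : Finset V} {lab : V → V} {a x : V} : x ∈ cl U lab a ↔ x ∈ U ∧ lab x = a := by
  unfold cl; rw [mem_filter]

/-- ordered number of edges between different clusters -/
noncomputable def wt (G : SimpleGraph V) (U : Finset V) (lab : V → V) : ℕ :=
  ∑ x ∈ U, ∑ y ∈ U, gi G x y * ind (lab x ≠ lab y)

/-- number of edges between two clusters -/
noncomputable def ww (G : SimpleGraph V) (U : Finset V) (lab : V → V) (a b : V) : ℕ :=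
  ∑ x ∈ U, ∑ y ∈ U, gi G x y * ind (lab x = a ∧ lab y = b)

omit [DecidableEq V] in
theorem sum2_mono (G : SimpleGraph V) (U : Finset V) (f g : V → V → ℕ)
    (h : ∀ x ∈ U, ∀ y ∈ U, f x y ≤ g x y) :
    ∑ x ∈ U, ∑ y ∈ U, gi G x y * f x y ≤ ∑ x ∈ U, ∑ y ∈ U, gi G x y * g x y :=
  sum_le_sum (fun x hx => sum_le_sum (fun y hy => Nat.mul_le_mul_left _ (h x hx y hy)))

omit [DecidableEq V] in
theorem sum2_swap (G : SimpleGraph V) (U : Finset V) (f : V → V → ℕ) :
    ∑ x ∈ U, ∑ y ∈ U, gi G x y * f x y = ∑ x ∈ U, ∑ y ∈ U, gi G x y * f y x := by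
  rw [sum_comm]
  apply sum_congr rfl
  intro x _
  apply sum_congr rfl
  intro y _
  rw [gi_symm]

omit [DecidableEq V] in
theorem sum2_sum {ι : Type} (G : SimpleGraph V) (U : Finset V) (s : Finset ι) (f : ι → V → V → ℕ) :
    ∑ i ∈ s, ∑ x ∈ U, ∑ y ∈ U, gi G x y * f i x y =
      ∑ x ∈ U, ∑ y ∈ U, gi G x y * ∑ i ∈ s, f i x y := by
  rw [sum_comm]
  apply sum_congr rfl
  intro x _
  rw [sum_comm]
  apply sum_congr rfl
  intro y _
  rw [mul_sum]

omit [DecidableEq V] in
theorem ww_le_wt (G : SimpleGraph V) (U : Finset V) (lab : V → V) {a b : V} (hab : a ≠ b) :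
    ww G U lab a b ≤ wt G U lab := by
  apply sum2_mono
  intro x _ y _
  apply ind_mono
  rintro ⟨rfl, rfl⟩
  exact hab

theorem wt_le (G : SimpleGraph V) (U : Finset V) (lab : V → V) :
    wt G U lab ≤ ∑ e ∈ ((U.image lab) ×ˢ (U.image lab)).filter (fun e => e.1 ≠ e.2),
      ww G U lab e.1 e.2 := by
  unfold ww
  rw [sum2_sum G U _ (fun (e : V × V) x y => ind (lab x = e.1 ∧ lab y = e.2))]
  unfold wt
  apply sum2_mono
  intro x hx y hy
  by_cases h : lab x ≠ lab y
  · rw [ind_pos h]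
    have hmem : (lab x, lab y) ∈ ((U.image lab) ×ˢ (U.image lab)).filter (fun e => e.1 ≠ e.2) := by
      rw [mem_filter, mem_product]
      exact ⟨⟨mem_image_of_mem _ hx, mem_image_of_mem _ hy⟩, h⟩
    have := single_le_sum (f := fun e : V × V => ind (lab x = e.1 ∧ lab y = e.2))
      (fun e _ => Nat.zero_le _) hmem
    simp only [and_self] at this
    rw [ind_pos trivial] at this
    exact this
  · rw [ind_neg h]; exact Nat.zero_le _

theorem ww_pos {G : SimpleGraph V} {U : Finset V} {lab : V → V} {a b : V}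
    (h : 0 < ww G U lab a b) : ∃ x ∈ cl U lab a, ∃ y ∈ cl U lab b, G.Adj x y := by
  by_contra hcon
  push Not at hcon
  have : ww G U lab a b = 0 := by
    apply sum_eq_zero
    intro x hx
    apply sum_eq_zero
    intro y hy
    by_cases h1 : lab x = a ∧ lab y = b
    · rw [gi_nz (hcon x (mem_cl.2 ⟨hx, h1.1⟩) y (mem_cl.2 ⟨hy, h1.2⟩)), zero_mul]
    · rw [ind_neg h1, mul_zero]
  omega

theorem ww_sum_le (G : SimpleGraph V) (U : Finset V) (lab : V → V) (C : Finset V) (b : V) :
    ∑ a ∈ C, ww G U lab a b ≤ ∑ y ∈ cl U lab b, dg G y U := by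
  unfold ww
  rw [sum2_sum G U C (fun a x y => ind (lab x = a ∧ lab y = b))]
  have h1 : ∑ x ∈ U, ∑ y ∈ U, gi G x y * ∑ a ∈ C, ind (lab x = a ∧ lab y = b) ≤
      ∑ x ∈ U, ∑ y ∈ U, gi G x y * ind (lab y = b) := by
    apply sum2_mono
    intro x _ y _
    by_cases h : lab y = b
    · rw [ind_pos h]
      by_cases hx : lab x ∈ C
      · rw [sum_eq_single (lab x)]
        · exact ind_le _
        · intro a _ ha; exact ind_neg (fun h => ha h.1.symm)
        · intro h; exact absurd hx h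
      · rw [sum_eq_zero]
        · exact Nat.zero_le _
        · intro a ha; apply ind_neg; rintro ⟨h1, _⟩; exact hx (h1 ▸ ha)
    · rw [sum_eq_zero]
      · exact Nat.zero_le _
      · intro a _; exact ind_neg (fun h' => h h'.2)
  refine h1.trans (le_of_eq ?_)
  rw [sum_comm]
  unfold cl dg
  rw [sum_filter]
  apply sum_congr rfl
  intro y _
  by_cases h : lab y = b
  · rw [if_pos h]
    apply sum_congr rfl
    intro x _
    rw [ind_pos h, mul_one, gi_symm]
  · rw [if_neg h]
    apply sum_eq_zero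
    intro x _
    rw [ind_neg h, mul_zero]

theorem sum_range_ind_le (n B : ℕ) : ∑ t ∈ range B, ind (t < n) ≤ n := by
  classical
  have : ∑ t ∈ range B, ind (t < n) = ((range B).filter (fun t => t < n)).card := by
    rw [card_filter]
    apply sum_congr rfl
    intro t _
    rw [ind_ite]
  rw [this]
  have h2 : (range B).filter (fun t => t < n) ⊆ range n := by
    intro t ht
    exact mem_range.2 (mem_filter.1 ht).2
  simpa using card_le_card h2

theorem sum_range_ind (n B : ℕ) (h : n ≤ B) : n ≤ ∑ t ∈ range B, ind (t < n) := by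
  classical
  have : ∑ t ∈ range B, ind (t < n) = ((range B).filter (fun t => t < n)).card := by
    rw [card_filter]
    apply sum_congr rfl
    intro t _
    rw [ind_ite]
  rw [this]
  have h2 : range n ⊆ (range B).filter (fun t => t < n) := by
    intro t ht
    have := mem_range.1 ht
    exact mem_filter.2 ⟨mem_range.2 (by omega), this⟩
  simpa using card_le_card h2

/-- the heaviest edges at the clusters carry a constant part of the weight -/
theorem wt_heavy [Finite V] (G : SimpleGraph V) (h5 : ¬ K5Model G) (U : Finset V) (lab : V → V)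
    (hconn : ∀ a ∈ U.image lab, (G.induce (cl U lab a : Set V)).Connected) (h : V → ℕ)
    (hh : ∀ a ∈ U.image lab, ∀ b ∈ U.image lab, b ≠ a → ww G U lab a b ≤ h a ∧ ww G U lab b a ≤ h a) :
    wt G U lab ≤ 14 * ∑ a ∈ U.image lab, h a := by
  classical
  set Λ := U.image lab with hΛ
  set B := wt G U lab with hB
  have hdens : ∀ t : ℕ, ((Λ ×ˢ Λ).filter (fun e => e.1 ≠ e.2 ∧ t < ww G U lab e.1 e.2)).card ≤
      14 * (Λ.filter (fun a => t < h a)).card := by
    intro t
    apply dens G h5 (Λ.filter (fun a => t < h a)) (fun a => (cl U lab a : Set V))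
    · intro a ha; exact hconn a (mem_filter.1 ha).1
    · intro a _ b _ hab
      rw [Set.disjoint_left]
      intro x hx hx'
      exact hab ((mem_cl.1 (mem_coe.1 hx)).2.symm.trans (mem_cl.1 (mem_coe.1 hx')).2)
    · intro e he
      obtain ⟨h1, h2, h3⟩ := mem_filter.1 he
      obtain ⟨h4, h5'⟩ := mem_product.1 h1
      have k1 := (hh e.1 h4 e.2 h5' h2.symm).1
      have k2 := (hh e.2 h5' e.1 h4 h2).2
      refine ⟨mem_filter.2 ⟨h4, by omega⟩, mem_filter.2 ⟨h5', by omega⟩, h2, ?_⟩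
      exact ww_pos (by omega)
  have h1 : B ≤ ∑ e ∈ (Λ ×ˢ Λ).filter (fun e => e.1 ≠ e.2), ww G U lab e.1 e.2 := wt_le G U lab
  have h2 : ∑ e ∈ (Λ ×ˢ Λ).filter (fun e => e.1 ≠ e.2), ww G U lab e.1 e.2 ≤
      ∑ e ∈ (Λ ×ˢ Λ).filter (fun e => e.1 ≠ e.2), ∑ t ∈ range B, ind (t < ww G U lab e.1 e.2) := by
    apply sum_le_sum
    intro e he
    exact sum_range_ind _ _ (ww_le_wt G U lab (mem_filter.1 he).2)
  have h3 : ∑ e ∈ (Λ ×ˢ Λ).filter (fun e => e.1 ≠ e.2), ∑ t ∈ range B,
      ind (t < ww G U lab e.1 e.2) = ∑ t ∈ range B,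
      ((Λ ×ˢ Λ).filter (fun e => e.1 ≠ e.2 ∧ t < ww G U lab e.1 e.2)).card := by
    rw [sum_comm]
    apply sum_congr rfl
    intro t _
    rw [← filter_filter, card_filter]
    apply sum_congr rfl
    intro e _
    rw [ind_ite]
  have h4 : ∑ t ∈ range B, ((Λ ×ˢ Λ).filter (fun e => e.1 ≠ e.2 ∧ t < ww G U lab e.1 e.2)).card ≤
      ∑ t ∈ range B, 14 * (Λ.filter (fun a => t < h a)).card :=
    sum_le_sum (fun t _ => hdens t)
  have h5' : ∑ t ∈ range B, 14 * (Λ.filter (fun a => t < h a)).card ≤ 14 * ∑ a ∈ Λ, h a := by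
    rw [← mul_sum]
    apply Nat.mul_le_mul_left
    have : ∀ t ∈ range B, (Λ.filter (fun a => t < h a)).card = ∑ a ∈ Λ, ind (t < h a) := by
      intro t _
      rw [card_filter]
      apply sum_congr rfl
      intro a _
      rw [ind_ite]
    rw [sum_congr rfl this, sum_comm]
    apply sum_le_sum
    intro a _
    exact sum_range_ind_le _ _
  omega

end

end Pool.Agent.N888.TF
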