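import Pool.Agent.N888.TF.Hyper

set_option autoImplicit false

/-!
# Iterated contraction of heavy stars
-/

namespace Pool.Agent.N888.TF

open Finset
open Pool.Agent.TH455
open Pool.Agent.Helper805.CHS (K5Model)

theorem conn_star {V : Type} (G : SimpleGraph V) (B : Set V) (hB : (G.induce B).Connected)
    (C : Set V → Prop) (hC : ∀ X, C X → (G.induce X).Connected ∧ ∃ x ∈ X, ∃ y ∈ B, G.Adj x y) :
    (G.induce {v | v ∈ B ∨ ∃ X, C X ∧ v ∈ X}).Connected := by
  have e : {v | v ∈ B ∨ ∃ X, C X ∧ v ∈ X} = ⋃₀ {Y | Y = B ∨ ∃ X, C X ∧ Y = B ∪ X} := by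
    ext v
    simp only [Set.mem_ofPred_eq, Set.mem_sUnion]
    constructor
    · rintro (h | ⟨X, hX, hv⟩)
      · exact ⟨B, Or.inl rfl, h⟩
      · exact ⟨B ∪ X, Or.inr ⟨X, hX, rfl⟩, Or.inr hv⟩
    · rintro ⟨Y, (rfl | ⟨X, hX, rfl⟩), hv⟩
      · exact Or.inl hv
      · rcases hv with hv | hv
        · exact Or.inl hv
        · exact Or.inr ⟨X, hX, hv⟩
  rw [e]
  obtain ⟨⟨b, hb⟩⟩ := hB.nonempty
  apply SimpleGraph.induce_sUnion_connected_of_pairwise_not_disjoint
  · exact ⟨B, Or.inl rfl⟩
  · rintro s t (rfl | ⟨X, hX, rfl⟩) (rfl | ⟨Y, hY, rfl⟩)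
    · exact ⟨b, hb, hb⟩
    · exact ⟨b, hb, Or.inl hb⟩
    · exact ⟨b, Or.inl hb, hb⟩
    · exact ⟨b, Or.inl hb, Or.inl hb⟩
  · rintro s (rfl | ⟨X, hX, rfl⟩)
    · exact hB
    · obtain ⟨h1, x, hx, y, hy, hxy⟩ := hC X hX
      exact SimpleGraph.connected_induce_union hB.preconnected h1.preconnected hy hx hxy.symm

theorem round_contract {V : Type} [DecidableEq V] [Finite V] (G : SimpleGraph V)
    (h5 : ¬ K5Model G) (U : Finset V) (D s : ℕ) (hD : ∀ x ∈ U, dg G x U ≤ D) (lab : V → V)
    (hconn : ∀ a ∈ U.image lab, (G.induce (cl U lab a : Set V)).Connected)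
    (hsize : ∀ a, (cl U lab a).card ≤ s) :
    ∃ lab' : V → V, (∀ a ∈ U.image lab', (G.induce (cl U lab' a : Set V)).Connected) ∧
      (∀ a, (cl U lab' a).card ≤ s + s * D * s) ∧ 28 * wt G U lab' ≤ 27 * wt G U lab := by
  classical
  set Λ := U.image lab with hΛ
  by_cases htriv : ∃ a ∈ Λ, ∀ b ∈ Λ, b = a
  · -- a single cluster
    obtain ⟨a, ha, hall⟩ := htriv
    have h0 : wt G U lab = 0 := by
      apply sum_eq_zero
      intro x hx
      apply sum_eq_zero
      intro y hy
      rw [ind_neg, mul_zero]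
      intro hne
      apply hne
      rw [hall _ (mem_image_of_mem _ hx), hall _ (mem_image_of_mem _ hy)]
    refine ⟨lab, hconn, fun a => (hsize a).trans (Nat.le_add_right _ _), by rw [h0]⟩
  · push Not at htriv
    -- heaviest neighbour
    have hpick : ∀ a, ∃ b, a ∈ Λ → (b ∈ Λ ∧ b ≠ a ∧ ∀ b' ∈ Λ, b' ≠ a →
        ww G U lab a b' ≤ ww G U lab a b) := by
      intro a
      by_cases ha : a ∈ Λ
      · obtain ⟨b0, hb0, hne0⟩ := htriv a ha
        obtain ⟨b, hb, hmax⟩ := exists_max_image (Λ.erase a) (fun b => ww G U lab a b)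
          ⟨b0, mem_erase.2 ⟨hne0, hb0⟩⟩
        refine ⟨b, fun _ => ⟨mem_of_mem_erase hb, (mem_erase.1 hb).1, ?_⟩⟩
        intro b' hb' hne'
        exact hmax b' (mem_erase.2 ⟨hne', hb'⟩)
      · exact ⟨a, fun h => absurd h ha⟩
    choose p hp using hpick
    set h : V → ℕ := fun a => ww G U lab a (p a) with hh
    have hsym : ∀ a b, ww G U lab a b = ww G U lab b a := by
      intro a b
      unfold ww
      rw [sum2_swap G U (fun x y => ind (lab x = a ∧ lab y = b))]
      apply sum_congr rfl; intro x _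
      apply sum_congr rfl; intro y _
      congr 1
      exact ind_congr (by tauto)
    have hheavy : wt G U lab ≤ 14 * ∑ a ∈ Λ, h a := by
      apply wt_heavy G h5 U lab hconn h
      intro a ha b hb hba
      refine ⟨(hp a ha).2.2 b hb hba, ?_⟩
      rw [hsym]
      exact (hp a ha).2.2 b hb hba
    obtain ⟨R, hR, hcut⟩ := exists_cut Λ p h (fun a ha => ⟨(hp a ha).1, (hp a ha).2.1⟩)
    set C := Λ.filter (fun a => a ∈ R ∧ p a ∉ R ∧ 0 < h a) with hC
    have hCmem : ∀ a, a ∈ C ↔ a ∈ Λ ∧ a ∈ R ∧ p a ∉ R ∧ 0 < h a := by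
      intro a; rw [hC, mem_filter]
    have hCsum : ∑ a ∈ Λ.filter (fun a => a ∈ R ∧ p a ∉ R), h a ≤ ∑ a ∈ C, h a := by
      have hsub : C ⊆ Λ.filter (fun a => a ∈ R ∧ p a ∉ R) := by
        intro a ha
        rw [hCmem] at ha
        rw [mem_filter]
        exact ⟨ha.1, ha.2.1, ha.2.2.1⟩
      rw [← sum_sdiff hsub]
      have : ∑ a ∈ (Λ.filter (fun a => a ∈ R ∧ p a ∉ R)) \ C, h a = 0 := by
        apply sum_eq_zero
        intro a ha
        rw [mem_sdiff, mem_filter, hCmem] at ha
        by_contra hne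
        exact ha.2 ⟨ha.1.1, ha.1.2.1, ha.1.2.2, Nat.pos_of_ne_zero hne⟩
      omega
    have hpC : ∀ a ∈ C, p a ∉ C := by
      intro a ha h'
      rw [hCmem] at ha h'
      exact ha.2.2.1 h'.2.1
    set σ : V → V := fun a => if a ∈ C then p a else a with hσ
    have σC : ∀ a ∈ C, σ a = p a := fun a ha => if_pos ha
    have σN : ∀ a, a ∉ C → σ a = a := fun a ha => if_neg ha
    set lab' : V → V := fun v => σ (lab v) with hlab'
    -- description of the new clusters
    have hcl : ∀ b x, x ∈ cl U lab' b ↔ b ∉ C ∧ (x ∈ cl U lab b ∨ ∃ a ∈ C, p a = b ∧ x ∈ cl U lab a) := by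
      intro b x
      simp only [mem_cl]
      constructor
      · rintro ⟨hx, hxb⟩
        by_cases hxC : lab x ∈ C
        · have h1 : p (lab x) = b := by rw [← σC _ hxC]; exact hxb
          exact ⟨h1 ▸ hpC _ hxC, Or.inr ⟨lab x, hxC, h1, hx, rfl⟩⟩
        · have h1 : lab x = b := by rw [← σN _ hxC]; exact hxb
          exact ⟨h1 ▸ hxC, Or.inl ⟨hx, h1⟩⟩
      · rintro ⟨hb, (⟨hx, hxb⟩ | ⟨a, ha, hpa, hx, hxa⟩)⟩
        · refine ⟨hx, ?_⟩
          simp only [hlab']
          rw [hxb, σN _ hb]
        · refine ⟨hx, ?_⟩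
          simp only [hlab']
          rw [hxa, σC _ ha, hpa]
    refine ⟨lab', ?_, ?_, ?_⟩
    · -- connectivity
      intro b hb
      obtain ⟨x, hx, hxb⟩ := mem_image.1 hb
      have hxcl : x ∈ cl U lab' b := mem_cl.2 ⟨hx, hxb⟩
      have hbC := ((hcl b x).1 hxcl).1
      have hbΛ : b ∈ Λ := by
        rcases ((hcl b x).1 hxcl).2 with h1 | ⟨a, ha, hpa, _⟩
        · rw [← (mem_cl.1 h1).2]; exact mem_image_of_mem _ hx
        · rw [← hpa]; exact (hp a ((hCmem a).1 ha).1).1
      have key := conn_star G (cl U lab b : Set V) (hconn b hbΛ)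
        (fun X => ∃ a ∈ C, p a = b ∧ X = (cl U lab a : Set V)) (by
          rintro X ⟨a, ha, hpa, rfl⟩
          have ha' := (hCmem a).1 ha
          refine ⟨hconn a ha'.1, ?_⟩
          obtain ⟨x, hx, y, hy, hxy⟩ := ww_pos ha'.2.2.2
          rw [hpa] at hy
          exact ⟨x, mem_coe.2 hx, y, mem_coe.2 hy, hxy⟩)
      have e : {v | v ∈ (cl U lab b : Set V) ∨ ∃ X, (∃ a ∈ C, p a = b ∧ X = (cl U lab a : Set V)) ∧
          v ∈ X} = (cl U lab' b : Set V) := by
        ext v
        simp only [Set.mem_ofPred_eq, mem_coe]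
        rw [hcl]
        constructor
        · rintro (h1 | ⟨X, ⟨a, ha, hpa, rfl⟩, hv⟩)
          · exact ⟨hbC, Or.inl h1⟩
          · exact ⟨hbC, Or.inr ⟨a, ha, hpa, mem_coe.1 hv⟩⟩
        · rintro ⟨_, (h1 | ⟨a, ha, hpa, hv⟩)⟩
          · exact Or.inl h1
          · exact Or.inr ⟨_, ⟨a, ha, hpa, rfl⟩, mem_coe.2 hv⟩
      rw [e] at key
      exact key
    · -- sizes
      intro b
      set Cb := C.filter (fun a => p a = b) with hCb
      have h1 : Cb.card ≤ s * D := by
        have e1 : Cb.card ≤ ∑ a ∈ Cb, ww G U lab a b := by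
          have : ∀ a ∈ Cb, 1 ≤ ww G U lab a b := by
            intro a ha
            obtain ⟨ha1, ha2⟩ := mem_filter.1 ha
            have := ((hCmem a).1 ha1).2.2.2
            simp only [hh] at this
            rw [ha2] at this
            exact this
          simpa using card_nsmul_le_sum Cb _ 1 this
        have e2 := ww_sum_le G U lab Cb b
        have e3 : ∑ y ∈ cl U lab b, dg G y U ≤ (cl U lab b).card • D := by
          apply sum_le_card_nsmul
          intro y hy
          exact hD y (mem_cl.1 hy).1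
        rw [smul_eq_mul] at e3
        have e4 : (cl U lab b).card * D ≤ s * D := Nat.mul_le_mul_right _ (hsize b)
        omega
      have h2 : cl U lab' b ⊆ cl U lab b ∪ Cb.biUnion (fun a => cl U lab a) := by
        intro x hx
        rcases ((hcl b x).1 hx).2 with h3 | ⟨a, ha, hpa, hxa⟩
        · exact mem_union_left _ h3
        · exact mem_union_right _ (mem_biUnion.2 ⟨a, mem_filter.2 ⟨ha, hpa⟩, hxa⟩)
      have h3 := card_le_card h2
      have h4 := card_union_le (cl U lab b) (Cb.biUnion (fun a => cl U lab a))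
      have h5 : (Cb.biUnion (fun a => cl U lab a)).card ≤ Cb.card * s := by
        refine card_biUnion_le.trans ?_
        have := sum_le_card_nsmul Cb (fun a => (cl U lab a).card) s (fun a _ => hsize a)
        simpa using this
      have h6 : Cb.card * s ≤ s * D * s := Nat.mul_le_mul_right _ h1
      have h7 := hsize b
      omega
    · -- weights
      have h1 : wt G U lab' + ∑ x ∈ U, ∑ y ∈ U, gi G x y * ind (lab x ∈ C ∧ lab y = p (lab x)) +
          ∑ x ∈ U, ∑ y ∈ U, gi G x y * ind (lab y ∈ C ∧ lab x = p (lab y)) ≤ wt G U lab := by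
        unfold wt
        rw [← sum_add_distrib, ← sum_add_distrib]
        apply sum_le_sum
        intro x hx
        rw [← sum_add_distrib, ← sum_add_distrib]
        apply sum_le_sum
        intro y hy
        rw [← mul_add, ← mul_add]
        apply Nat.mul_le_mul_left
        have hpne : ∀ z ∈ C, p z ≠ z := fun z hz => (hp z ((hCmem z).1 hz).1).2.1
        by_cases hxy : lab x = lab y
        · have a1 : ¬ (lab' x ≠ lab' y) := by
            simp only [hlab', hxy]; simp
          have a2 : ¬ (lab x ∈ C ∧ lab y = p (lab x)) := by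
            rintro ⟨h1, h2⟩
            rw [← hxy] at h2
            exact hpne _ h1 h2.symm
          have a3 : ¬ (lab y ∈ C ∧ lab x = p (lab y)) := by
            rintro ⟨h1, h2⟩
            rw [hxy] at h2
            exact hpne _ h1 h2.symm
          rw [ind_neg a1, ind_neg a2, ind_neg a3]
          exact Nat.zero_le _
        · rw [ind_pos (p := lab x ≠ lab y) hxy]
          by_cases a2 : lab x ∈ C ∧ lab y = p (lab x)
          · have hyC : lab y ∉ C := a2.2 ▸ hpC _ a2.1
            have a1 : ¬ (lab' x ≠ lab' y) := by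
              simp only [hlab']
              rw [σC _ a2.1, σN _ hyC, a2.2]; simp
            have a3 : ¬ (lab y ∈ C ∧ lab x = p (lab y)) := fun h => hyC h.1
            rw [ind_neg a1, ind_pos a2, ind_neg a3]
          · by_cases a3 : lab y ∈ C ∧ lab x = p (lab y)
            · have hxC : lab x ∉ C := a3.2 ▸ hpC _ a3.1
              have a1 : ¬ (lab' x ≠ lab' y) := by
                simp only [hlab']
                rw [σC _ a3.1, σN _ hxC, a3.2]; simp
              rw [ind_neg a1, ind_neg a2, ind_pos a3]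
            · rw [ind_neg a2, ind_neg a3]
              exact ind_le _
      have h2 : ∑ x ∈ U, ∑ y ∈ U, gi G x y * ind (lab y ∈ C ∧ lab x = p (lab y)) =
          ∑ x ∈ U, ∑ y ∈ U, gi G x y * ind (lab x ∈ C ∧ lab y = p (lab x)) :=
        sum2_swap G U (fun x y => ind (lab y ∈ C ∧ lab x = p (lab y)))
      have h3 : ∑ a ∈ C, h a ≤
          ∑ x ∈ U, ∑ y ∈ U, gi G x y * ind (lab x ∈ C ∧ lab y = p (lab x)) := by
        simp only [hh]
        unfold ww
        rw [sum2_sum G U C (fun a x y => ind (lab x = a ∧ lab y = p a))]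
        apply sum2_mono
        intro x _ y _
        by_cases hx : lab x ∈ C ∧ lab y = p (lab x)
        · rw [ind_pos hx, sum_eq_single (lab x)]
          · exact ind_le _
          · intro a _ ha; exact ind_neg (fun h => ha h.1.symm)
          · intro h; exact absurd hx.1 h
        · rw [sum_eq_zero]
          · exact Nat.zero_le _
          · intro a ha
            apply ind_neg
            rintro ⟨h1, h2⟩
            rw [← h1] at ha h2
            exact hx ⟨ha, h2⟩
      omega

end Pool.Agent.N888.TF
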