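import Pool.Agent.N888.TF.Hyper2

set_option autoImplicit false

/-!
# Bounded pieces with few incident edges
-/

namespace Pool.Agent.N888.TF

open Finset
open Pool.Agent.TH455
open Pool.Agent.Helper805.CHS (K5Model)

/-- sizes of the clusters -/
def sz (D : ℕ) : ℕ → ℕ
  | 0 => 1
  | r + 1 => sz D r + sz D r * D * sz D r

theorem iterate {V : Type} [DecidableEq V] [Finite V] (G : SimpleGraph V)
    (h5 : ¬ K5Model G) (U : Finset V) (D : ℕ) (hD : ∀ x ∈ U, dg G x U ≤ D) (r : ℕ) :
    ∃ lab : V → V, (∀ a ∈ U.image lab, (G.induce (cl U lab a : Set V)).Connected) ∧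
      (∀ a, (cl U lab a).card ≤ sz D r) ∧ 28 ^ r * wt G U lab ≤ 27 ^ r * wt G U id := by
  induction r with
  | zero =>
    refine ⟨id, ?_, ?_, by simp⟩
    · intro a ha
      rw [image_id] at ha
      have e : (cl U id a : Set V) = {a} := by
        ext x
        rw [mem_coe, mem_cl]
        simp only [id, Set.mem_singleton_iff]
        constructor
        · exact fun h => h.2
        · rintro rfl; exact ⟨ha, rfl⟩
      rw [e]
      exact conn_connected G _ (conn_singleton G a)
    · intro a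
      have : cl U id a ⊆ {a} := by
        intro x hx
        rw [mem_cl] at hx
        simp only [id] at hx
        simp [hx.2]
      simpa [sz] using card_le_card this
  | succ r ih =>
    obtain ⟨lab, h1, h2, h3⟩ := ih
    obtain ⟨lab', h1', h2', h3'⟩ := round_contract G h5 U D (sz D r) hD lab h1 h2
    refine ⟨lab', h1', h2', ?_⟩
    calc 28 ^ (r + 1) * wt G U lab' = 28 ^ r * (28 * wt G U lab') := by ring
      _ ≤ 28 ^ r * (27 * wt G U lab) := Nat.mul_le_mul_left _ h3'
      _ = 27 * (28 ^ r * wt G U lab) := by ring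
      _ ≤ 27 * (27 ^ r * wt G U id) := Nat.mul_le_mul_left _ h3
      _ = 27 ^ (r + 1) * wt G U id := by ring

theorem dg_union {V : Type} [DecidableEq V] (G : SimpleGraph V) (v : V) {X Y : Finset V}
    (h : Disjoint X Y) : dg G v (X ∪ Y) = dg G v X + dg G v Y := sum_union h

theorem dg_sdiff {V : Type} [DecidableEq V] (G : SimpleGraph V) (v : V) {X Y : Finset V}
    (h : X ⊆ Y) : dg G v (Y \ X) + dg G v X = dg G v Y := sum_sdiff h

theorem dg_swap {V : Type} (G : SimpleGraph V) (X Y : Finset V) :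
    ∑ x ∈ X, dg G x Y = ∑ y ∈ Y, dg G y X := by
  unfold dg
  rw [sum_comm]
  apply sum_congr rfl; intro y _
  apply sum_congr rfl; intro x _
  exact gi_symm G x y

theorem exists_piece : ∃ K : ℕ, ∀ (V : Type) [Fintype V] [DecidableEq V] (G : SimpleGraph V),
    Sparse (gi G) → ¬ K5Model G → ∀ S : Finset V, S.Nonempty →
    ∃ A ⊆ S, A.Nonempty ∧ A.card ≤ K ∧
      1000 * ∑ v ∈ A, (dg G v A + 2 * dg G v (S \ A)) ≤ 4002 * A.card := by
  classical
  refine ⟨sz 16007 240, ?_⟩
  intro V _ _ G hsp h5 S hS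
  set n := S.card with hn
  have hnpos : 0 < n := card_pos.2 hS
  set U := S.filter (fun v => dg G v S ≤ 16007) with hU
  have hUS : U ⊆ S := filter_subset _ _
  have htot : ∑ v ∈ S, dg G v S + 4 ≤ 4 * n := hsp S hS
  have hsplit : ∑ v ∈ S \ U, dg G v S + ∑ v ∈ U, dg G v S = ∑ v ∈ S, dg G v S := sum_sdiff hUS
  have hhigh : 16008 * (S \ U).card ≤ ∑ v ∈ S \ U, dg G v S := by
    have : ∀ v ∈ S \ U, 16008 ≤ dg G v S := by
      intro v hv
      rw [mem_sdiff, mem_filter] at hv
      by_contra hcon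
      exact hv.2 ⟨hv.1, by omega⟩
    have h1 := card_nsmul_le_sum (S \ U) _ 16008 this
    rw [smul_eq_mul] at h1
    omega
  have hcard : (S \ U).card + U.card = n := card_sdiff_add_card_eq_card hUS
  have hUne : U.Nonempty := by
    rw [← card_pos]; omega
  obtain ⟨lab, hconn, hsize, hwt⟩ := iterate G h5 U 16007 (fun x hx =>
    (dg_mono G x hUS).trans (mem_filter.1 hx).2) 240
  have hid : wt G U id ≤ 4 * n := by
    have h1 : wt G U id ≤ ∑ x ∈ U, dg G x U := by
      unfold wt dg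
      apply sum_le_sum; intro x _
      apply sum_le_sum; intro y _
      calc gi G x y * ind (id x ≠ id y) ≤ gi G x y * 1 := Nat.mul_le_mul_left _ (ind_le _)
        _ = gi G x y := mul_one _
    have h2 : ∑ x ∈ U, dg G x U + 4 ≤ 4 * U.card := hsp U hUne
    omega
  have hsmall : 1000 * wt G U lab ≤ n := by
    have h1 : (28 : ℕ) ^ 240 * (1000 * wt G U lab) ≤ 28 ^ 240 * n := by
      calc (28 : ℕ) ^ 240 * (1000 * wt G U lab) = 1000 * (28 ^ 240 * wt G U lab) := by ring
        _ ≤ 1000 * (27 ^ 240 * wt G U id) := Nat.mul_le_mul_left _ hwt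
        _ ≤ 1000 * (27 ^ 240 * (4 * n)) :=
            Nat.mul_le_mul_left _ (Nat.mul_le_mul_left _ hid)
        _ = (4000 * 27 ^ 240) * n := by ring
        _ ≤ 28 ^ 240 * n := Nat.mul_le_mul_right _ (by norm_num)
    exact Nat.le_of_mul_le_mul_left h1 (by positivity)
  by_contra hcon
  push Not at hcon
  set Λ := U.image lab with hΛ
  have hclU : ∀ a, cl U lab a ⊆ U := fun a => filter_subset _ _
  have hbig : ∀ a ∈ Λ, 4002 * (cl U lab a).card <
      1000 * ∑ v ∈ cl U lab a, (dg G v (cl U lab a) + 2 * dg G v (S \ cl U lab a)) := by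
    intro a ha
    obtain ⟨x, hx, hxa⟩ := mem_image.1 ha
    exact hcon (cl U lab a) ((hclU a).trans hUS) ⟨x, mem_cl.2 ⟨hx, hxa⟩⟩ (hsize a)
  have hsum := sum_lt_sum_of_nonempty (s := Λ) (hUne.image lab) hbig
  rw [← mul_sum, ← mul_sum] at hsum
  have hc1 : ∑ a ∈ Λ, (cl U lab a).card = U.card :=
    (card_eq_sum_card_fiberwise (f := lab) (t := Λ) (fun x hx => mem_image_of_mem lab hx)).symm
  have hc2 : ∑ a ∈ Λ, ∑ v ∈ cl U lab a, (dg G v (cl U lab a) + 2 * dg G v (S \ cl U lab a)) =
      ∑ v ∈ U, (dg G v (cl U lab (lab v)) + 2 * dg G v (S \ cl U lab (lab v))) := by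
    rw [← sum_fiberwise_of_maps_to (s := U) (t := Λ) (g := lab)
      (fun x hx => mem_image_of_mem lab hx)]
    apply sum_congr rfl
    intro a _
    unfold cl
    apply sum_congr rfl
    intro v hv
    rw [(mem_filter.1 hv).2]
  have hc3 : ∀ v ∈ U, dg G v (cl U lab (lab v)) + 2 * dg G v (S \ cl U lab (lab v)) =
      dg G v S + (dg G v (S \ U) + ∑ y ∈ U, gi G v y * ind (lab v ≠ lab y)) := by
    intro v _
    have e1 := dg_sdiff G v ((hclU (lab v)).trans hUS)
    have e2 : dg G v (S \ cl U lab (lab v)) = dg G v (S \ U) + dg G v (U \ cl U lab (lab v)) := by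
      rw [← dg_union]
      · congr 1
        ext x
        simp only [mem_sdiff, mem_union, mem_cl]
        have := @hUS x
        tauto
      · rw [disjoint_left]
        intro x hx hx'
        exact (mem_sdiff.1 hx).2 (mem_sdiff.1 hx').1
    have e3 : dg G v (U \ cl U lab (lab v)) = ∑ y ∈ U, gi G v y * ind (lab v ≠ lab y) := by
      have e4 : U \ cl U lab (lab v) = U.filter (fun y => lab v ≠ lab y) := by
        ext y
        simp only [mem_sdiff, mem_cl, mem_filter]
        constructor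
        · rintro ⟨h1, h2⟩
          exact ⟨h1, fun h => h2 ⟨h1, h.symm⟩⟩
        · rintro ⟨h1, h2⟩
          exact ⟨h1, fun h => h2 h.2.symm⟩
      rw [e4]
      unfold dg
      rw [sum_filter]
      apply sum_congr rfl
      intro y _
      by_cases h : lab v ≠ lab y
      · rw [if_pos h, ind_pos h, mul_one]
      · rw [if_neg h, ind_neg h, mul_zero]
    omega
  have hc4 : ∑ v ∈ U, (dg G v S + (dg G v (S \ U) + ∑ y ∈ U, gi G v y * ind (lab v ≠ lab y))) =
      ∑ v ∈ U, dg G v S + (∑ v ∈ U, dg G v (S \ U) + wt G U lab) := by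
    rw [sum_add_distrib, sum_add_distrib]
    rfl
  have hc5 : ∑ v ∈ U, dg G v (S \ U) ≤ ∑ v ∈ S \ U, dg G v S := by
    rw [dg_swap]
    exact sum_le_sum (fun v _ => dg_mono G v hUS)
  rw [hc1, hc2, sum_congr rfl hc3, hc4] at hsum
  omega

/-- bounded pieces which are hereditarily sparse, counting outside edges twice -/
theorem exists_T : ∃ K : ℕ, ∀ (V : Type) [Fintype V] [DecidableEq V] (G : SimpleGraph V),
    Sparse (gi G) → ¬ K5Model G → ∀ S : Finset V, S.Nonempty →
    ∃ T ⊆ S, T.Nonempty ∧ T.card ≤ K ∧ ∀ X ⊆ T, X.Nonempty →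
      1000 * ∑ v ∈ X, (dg G v X + 2 * dg G v (S \ T)) ≤ 4002 * X.card := by
  classical
  obtain ⟨K, hK⟩ := exists_piece
  refine ⟨K, ?_⟩
  intro V _ _ G hsp h5 S hS
  obtain ⟨A, hAS, hAne, hAK, hA⟩ := hK V G hsp h5 S hS
  obtain ⟨T, hTm, hTmin⟩ := exists_min_image (S.powerset.filter (fun T => T.Nonempty ∧ T.card ≤ K ∧
    1000 * ∑ v ∈ T, (dg G v T + 2 * dg G v (S \ T)) ≤ 4002 * T.card)) card
    ⟨A, mem_filter.2 ⟨mem_powerset.2 hAS, hAne, hAK, hA⟩⟩
  obtain ⟨hT1, hTne, hTK, hT⟩ := mem_filter.1 hTm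
  have hTS := mem_powerset.1 hT1
  refine ⟨T, hTS, hTne, hTK, ?_⟩
  intro X hXT hXne
  set T' := T \ X with hT'
  have hT'T : T' ⊆ T := sdiff_subset
  by_cases hT'e : T' = ∅
  · have hXT' : X = T := Subset.antisymm hXT (sdiff_eq_empty_iff_subset.1 hT'e)
    rw [hXT']; exact hT
  · have hT'ne : T'.Nonempty := nonempty_iff_ne_empty.2 hT'e
    have hcard : T'.card + X.card = T.card := card_sdiff_add_card_eq_card hXT
    have hXpos : 0 < X.card := card_pos.2 hXne
    have hbig : 4002 * T'.card < 1000 * ∑ v ∈ T', (dg G v T' + 2 * dg G v (S \ T')) := by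
      by_contra hcon
      have := hTmin T' (mem_filter.2 ⟨mem_powerset.2 (hT'T.trans hTS), hT'ne, by omega, by omega⟩)
      omega
    have hdis : Disjoint T' X := sdiff_disjoint
    have hTu : T' ∪ X = T := sdiff_union_of_subset hXT
    have hST' : S \ T' = (S \ T) ∪ X := by
      ext x
      simp only [hT', mem_sdiff, mem_union]
      have h1 := @hXT x
      have h2 := @hTS x
      tauto
    have hdis2 : Disjoint (S \ T) X := by
      rw [disjoint_left]
      intro x hx hx'
      exact (mem_sdiff.1 hx).2 (hXT hx')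
    have e1 : ∑ v ∈ T, (dg G v T + 2 * dg G v (S \ T)) =
        ∑ v ∈ T', (dg G v T + 2 * dg G v (S \ T)) + ∑ v ∈ X, (dg G v T + 2 * dg G v (S \ T)) := by
      rw [← hTu, sum_union hdis, hTu]
    have e2 : ∑ v ∈ T', (dg G v T + 2 * dg G v (S \ T)) =
        ∑ v ∈ T', dg G v T' + ∑ v ∈ T', dg G v X + 2 * ∑ v ∈ T', dg G v (S \ T) := by
      rw [mul_sum, ← sum_add_distrib, ← sum_add_distrib]
      apply sum_congr rfl
      intro v _
      rw [← dg_union G v hdis, hTu]
    have e3 : ∑ v ∈ X, (dg G v T + 2 * dg G v (S \ T)) =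
        ∑ v ∈ X, dg G v T' + ∑ v ∈ X, (dg G v X + 2 * dg G v (S \ T)) := by
      rw [← sum_add_distrib]
      apply sum_congr rfl
      intro v _
      rw [← hTu, dg_union G v hdis, hTu]
      ring
    have e4 : ∑ v ∈ T', (dg G v T' + 2 * dg G v (S \ T')) =
        ∑ v ∈ T', dg G v T' + 2 * ∑ v ∈ T', dg G v (S \ T) + 2 * ∑ v ∈ T', dg G v X := by
      rw [mul_sum, mul_sum, ← sum_add_distrib, ← sum_add_distrib]
      apply sum_congr rfl
      intro v _
      rw [hST', dg_union G v hdis2]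
      ring
    have e5 : ∑ v ∈ X, dg G v T' = ∑ v ∈ T', dg G v X := dg_swap G X T'
    omega

end Pool.Agent.N888.TF
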