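import Pool.Agent.N888.TF.Round
import Pool.Agent.N888.TF.Hyper3
import Pool.Agent.Helper805.CHS.Drawn

set_option autoImplicit false

/-!
# Multiple list colouring of triangle-free planar graphs with fewer than `4m` colours
-/

namespace Pool.Agent.N888.TF

open Finset
open Pool.Agent.TH455
open Pool.Agent.Helper805.CHS (K5Model K33Model IsDrawing no_K5Model no_K33Model)

/-- a common bound over a finite family -/
theorem uniform_intCol (K : ℕ) : ∃ N : ℕ, 0 < N ∧ ∀ k ≤ K, ∀ (H : SimpleGraph (Fin k))
    (o : Fin k → Fin 3), StrictG H (fun i => (o i : ℕ)) → IntCol H (fun i => (o i : ℕ)) N := by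
  classical
  have h1 : ∀ x : (Σ k : Fin (K + 1), SimpleGraph (Fin k) × (Fin k → Fin 3)), ∃ N : ℕ, 0 < N ∧
      (StrictG x.2.1 (fun i => (x.2.2 i : ℕ)) → IntCol x.2.1 (fun i => (x.2.2 i : ℕ)) N) := by
    intro x
    by_cases hx : StrictG x.2.1 (fun i => (x.2.2 i : ℕ))
    · obtain ⟨N, h0, h⟩ := exists_intCol x.2.1 _ hx
      exact ⟨N, h0, fun _ => h⟩
    · exact ⟨1, one_pos, fun h => absurd h hx⟩
  choose N hN0 hN using h1
  obtain ⟨M, hM⟩ := (Set.finite_range N).bddAbove
  refine ⟨M + 1, Nat.succ_pos _, ?_⟩
  intro k hk H o hS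
  let x : (Σ k : Fin (K + 1), SimpleGraph (Fin k) × (Fin k → Fin 3)) :=
    ⟨⟨k, by omega⟩, H, o⟩
  have h2 : N x ≤ M := hM ⟨x, rfl⟩
  exact intCol_mono (hN0 x) (by omega) (hN x hS)

/-- transfer of strictness to `Fin k` -/
theorem strict_fin {V : Type} [Fintype V] (G : SimpleGraph V)
    (hfree : G.CliqueFree 3) (hm : NoKMinor G) (out : V → ℕ) (T : Finset V) (k : ℕ)
    (e : Fin k ≃ {v // v ∈ T})
    (hE : ∀ S ⊆ T, S.Nonempty → 1000 * ∑ v ∈ S, (dg G v S + 2 * out v) ≤ 4002 * S.card) :
    StrictG (G.comap (fun i => (e i : V))) (fun i => out (e i)) := by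
  classical
  intro μ hμ hell
  let emb : Fin k ↪ V := ⟨fun i => (e i : V), fun i j h => e.injective (Subtype.ext h)⟩
  have hemb : ∀ i, emb i = (e i : V) := fun _ => rfl
  obtain ⟨t, ⟨J, _, y, c, I, p1, p2, p3, p4, p5⟩, ht⟩ := strict_thm G hfree hm
    (fun ω : Finset (Fin k) => ω.map emb) μ hμ out T (by
      intro v hv
      obtain ⟨i, hi⟩ := e.surjective ⟨v, hv⟩
      have hvi : (e i : V) = v := by rw [hi]
      have h1 : (4 : ℝ) - out (e i : V) ≤ ∑ ω, μ ω * bi (i ∈ ω) := hell i
      rw [hvi] at h1
      refine h1.trans (le_of_eq ?_)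
      apply sum_congr rfl
      intro ω _
      congr 1
      apply bi_congr
      rw [mem_map]
      constructor
      · intro h; exact ⟨i, h, hvi⟩
      · rintro ⟨j, hj, hjv⟩
        have : j = i := emb.injective (hjv.trans hvi.symm)
        rw [← this]; exact hj) hE
  refine ⟨fun i => t (e i), ⟨J, inferInstance, y, c,
    fun j => univ.filter (fun i => (e i : V) ∈ I j), p1, p2, ?_, ?_, ?_⟩, ?_⟩
  · intro j i hi
    have h1 := p3 j (mem_filter.1 hi).2
    rw [mem_map] at h1
    obtain ⟨i', hi', h2⟩ := h1
    have : i' = i := emb.injective h2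
    rw [← this]; exact hi'
  · intro j u hu v hv
    exact p4 j _ (mem_filter.1 hu).2 _ (mem_filter.1 hv).2
  · intro i
    simp only
    rw [← p5 (e i)]
    apply sum_congr rfl
    intro j _
    congr 1
    apply bi_congr
    rw [mem_filter]
    simp
  · intro i _
    exact ht _ (e i).2

/-- **Main theorem**: for some `N`, all triangle-free graphs without `K₅` and `K₃,₃` minors can be
`m`-fold coloured from lists of size at least `(4 - 1/N) m`, for every `m ≥ N`. -/
theorem main : ∃ N : ℕ, 0 < N ∧ ∀ m : ℕ, N ≤ m → ∀ (V : Type) [Fintype V] (G : SimpleGraph V),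
    G.CliqueFree 3 → NoKMinor G → ∀ L : V → Finset ℕ,
    (∀ v, (4 : ℝ) * m - m / N ≤ (L v).card) →
    ∃ f : V → Finset ℕ, (∀ v, f v ⊆ L v ∧ (f v).card = m) ∧
      ∀ u v, G.Adj u v → Disjoint (f u) (f v) := by
  classical
  obtain ⟨K, hK⟩ := exists_T
  obtain ⟨N, hN0, hN⟩ := uniform_intCol K
  refine ⟨N, hN0, ?_⟩
  intro m hm V _ G hfree hmin L hL
  have hsp := free_sparse hfree hmin
  have h5 : ¬ K5Model G := hmin.1
  have key : ∀ n : ℕ, ∀ S : Finset V, S.card = n → ∃ f : V → Finset ℕ,
      (∀ v ∈ S, f v ⊆ L v ∧ (f v).card = m) ∧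
      ∀ u ∈ S, ∀ v ∈ S, G.Adj u v → Disjoint (f u) (f v) := by
    intro n
    induction n using Nat.strong_induction_on with
    | _ n ih =>
      intro S hSn
      by_cases hS : S.Nonempty
      · obtain ⟨T, hTS, hTne, hTK, hT⟩ := hK V G hsp h5 S hS
        have hTpos : 0 < T.card := card_pos.2 hTne
        have hcard : (S \ T).card + T.card = S.card := card_sdiff_add_card_eq_card hTS
        obtain ⟨f', hf1, hf2⟩ := ih (S \ T).card (by omega) (S \ T) rfl
        set out : V → ℕ := fun v => dg G v (S \ T) with hout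
        have hout2 : ∀ v ∈ T, out v < 3 := by
          intro v hv
          have := hT {v} (singleton_subset_iff.2 hv) (singleton_nonempty v)
          rw [sum_singleton, dg_single, card_singleton] at this
          simp only [hout]
          omega
        set L' : V → Finset ℕ := fun v =>
          L v \ ((S \ T).filter (fun u => G.Adj v u)).biUnion f' with hL'
        have hL'card : ∀ v, (4 : ℝ) * m - out v * m - m / N ≤ (L' v).card := by
          intro v
          have h1 : (L v).card ≤ (L' v).card + out v * m := by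
            have e1 := le_card_sdiff (((S \ T).filter (fun u => G.Adj v u)).biUnion f') (L v)
            have e2 : (((S \ T).filter (fun u => G.Adj v u)).biUnion f').card ≤ out v * m := by
              refine card_biUnion_le.trans ?_
              have e3 := sum_le_card_nsmul ((S \ T).filter (fun u => G.Adj v u))
                (fun u => (f' u).card) m (fun u hu => (hf1 u (mem_filter.1 hu).1).2.le)
              rw [smul_eq_mul, ← dg_card] at e3
              exact e3
            have e4 : (L v \ ((S \ T).filter (fun u => G.Adj v u)).biUnion f').card =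
              (L' v).card := rfl
            omega
          have h2 := hL v
          have h3 : ((L v).card : ℝ) ≤ (L' v).card + out v * m := by exact_mod_cast h1
          linarith
        let e : Fin T.card ≃ {v // v ∈ T} := T.equivFin.symm
        let o : Fin T.card → Fin 3 := fun i => ⟨out (e i), hout2 _ (e i).2⟩
        obtain ⟨g, hg1, hg2⟩ := hN T.card hTK (G.comap (fun i => (e i : V))) o
          (strict_fin G hfree hmin out T T.card e hT) m hm (fun i => L' (e i))
          (fun i => hL'card (e i))
        let f : V → Finset ℕ := fun v => if h : v ∈ T then g (e.symm ⟨v, h⟩) else f' v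
        have fT : ∀ v (h : v ∈ T), f v = g (e.symm ⟨v, h⟩) := fun v h => dif_pos h
        have fN : ∀ v, v ∉ T → f v = f' v := fun v h => dif_neg h
        have gL : ∀ v (h : v ∈ T), g (e.symm ⟨v, h⟩) ⊆ L' v ∧ (g (e.symm ⟨v, h⟩)).card = m := by
          intro v h
          have := hg1 (e.symm ⟨v, h⟩)
          rw [Equiv.apply_symm_apply] at this
          exact this
        have cross : ∀ u ∈ T, ∀ v ∈ S, v ∉ T → G.Adj u v → Disjoint (f u) (f v) := by
          intro u hu v hv hvT huv
          rw [fT u hu, fN v hvT, disjoint_left]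
          intro x hx hx'
          have := (gL u hu).1 hx
          simp only [hL', mem_sdiff, mem_biUnion, mem_filter] at this
          exact this.2 ⟨v, ⟨⟨hv, hvT⟩, huv⟩, hx'⟩
        refine ⟨f, ?_, ?_⟩
        · intro v hv
          by_cases hvT : v ∈ T
          · rw [fT v hvT]
            exact ⟨(gL v hvT).1.trans sdiff_subset, (gL v hvT).2⟩
          · rw [fN v hvT]
            exact hf1 v (mem_sdiff.2 ⟨hv, hvT⟩)
        · intro u hu v hv huv
          by_cases huT : u ∈ T
          · by_cases hvT : v ∈ T
            · rw [fT u huT, fT v hvT]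
              apply hg2
              rw [SimpleGraph.comap_adj, Equiv.apply_symm_apply, Equiv.apply_symm_apply]
              exact huv
            · exact cross u huT v hv hvT huv
          · by_cases hvT : v ∈ T
            · exact (cross v hvT u hu huT huv.symm).symm
            · rw [fN u huT, fN v hvT]
              exact hf2 u (mem_sdiff.2 ⟨hu, huT⟩) v (mem_sdiff.2 ⟨hv, hvT⟩) huv
      · rw [not_nonempty_iff_eq_empty] at hS
        refine ⟨fun _ => ∅, ?_, ?_⟩
        · intro v hv; rw [hS] at hv; simp at hv
        · intro v hv; rw [hS] at hv; simp at hv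
  obtain ⟨f, h1, h2⟩ := key (univ : Finset V).card univ rfl
  exact ⟨f, fun v => h1 v (mem_univ v), fun u v => h2 u (mem_univ u) v (mem_univ v)⟩

theorem noKMinor_of_models {V : Type} {G : SimpleGraph V} (h5 : ¬ K5Model G)
    (h33 : ¬ K33Model G) : NoKMinor G := by
  refine ⟨h5, ?_⟩
  rintro ⟨f, h1, h2, h3⟩
  apply h33
  refine ⟨fun i => f (false, i), fun i => f (true, i), fun i => h1 _, fun i => h1 _, ?_, ?_, ?_, ?_⟩
  · intro i j hij
    exact h2 _ _ (fun h => hij (Prod.ext_iff.1 h).2)
  · intro i j hij
    exact h2 _ _ (fun h => hij (Prod.ext_iff.1 h).2)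
  · intro i j
    exact h2 _ _ (fun h => Bool.false_ne_true (Prod.ext_iff.1 h).1)
  · intro i j
    exact h3 _ _ Bool.false_ne_true

/-- a drawing in the sense of the frozen statement excludes the two minors -/
theorem noKMinor_of_drawing {V : Type} (G : SimpleGraph V)
    (h : ∃ (p : V → ℝ × ℝ) (γ : V → V → unitInterval → ℝ × ℝ),
          Function.Injective p ∧
          (∀ u v, G.Adj u v →
            Continuous (γ u v) ∧ Function.Injective (γ u v) ∧
            γ u v 0 = p u ∧ γ u v 1 = p v ∧
            (∀ t, γ u v t ∈ Set.range p → t = 0 ∨ t = 1)) ∧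
          (∀ u v x y, G.Adj u v → G.Adj x y →
            Sym2.mk (u, v) ≠ Sym2.mk (x, y) →
            ∀ s t, γ u v s = γ x y t → s = 0 ∨ s = 1)) : NoKMinor G := by
  obtain ⟨p, γ, hp, h1, h2⟩ := h
  let e := Complex.equivRealProdCLM.symm
  have hD : IsDrawing G (fun i => e (p i)) (fun u v t => e (γ u v t)) := by
    refine ⟨e.injective.comp hp, ?_, ?_, ?_, ?_, ?_⟩
    · intro u v huv
      exact e.continuous.comp (h1 u v huv).1
    · intro u v huv
      simp only [(h1 u v huv).2.2.1]
    · intro u v huv
      simp only [(h1 u v huv).2.2.2.1]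
    · intro u v huv z t he
      have he' : γ u v t = p z := e.injective he
      rcases (h1 u v huv).2.2.2.2 t ⟨z, he'.symm⟩ with h | h
      · left
        rw [h, (h1 u v huv).2.2.1] at he'
        exact (hp he').symm
      · right
        rw [h, (h1 u v huv).2.2.2.1] at he'
        exact (hp he').symm
    · intro u v w x huv hwx hne _ _ _ t s he
      have hne' : Sym2.mk (u, v) ≠ Sym2.mk (w, x) := by
        intro h
        have h' := congrFun h (u, v)
        rcases Sym2.eq_iff.mp h' with ⟨h1, _⟩ | ⟨_, h1⟩
        · exact hne (Prod.mk.inj h1).1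
        · exact hne (Prod.mk.inj h1).1
      rcases h2 u v w x huv hwx hne' t s (e.injective he) with h | h
      · left; rw [h, (h1 u v huv).2.2.1]
      · right; rw [h, (h1 u v huv).2.2.2.1]
  exact noKMinor_of_models (no_K5Model hD) (no_K33Model hD)

end Pool.Agent.N888.TF
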