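import Pool.Agent.N888.TF.Strict

set_option autoImplicit false

/-!
# From strict fractional colourings to integral colourings, uniformly
-/

namespace Pool.Agent.N888.TF

open Finset Filter Topology

/-- disjoint allocation of colours -/
theorem alloc {J Ω : Type} [Fintype J] [DecidableEq Ω] [DecidableEq J] (c : J → Ω)
    (Col : Ω → Finset ℕ) (k : J → ℕ)
    (hdis : ∀ ω ω', ω ≠ ω' → Disjoint (Col ω) (Col ω'))
    (hk : ∀ ω, ∑ j ∈ univ.filter (fun j => c j = ω), k j ≤ (Col ω).card) :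
    ∃ Z : J → Finset ℕ, (∀ j, Z j ⊆ Col (c j) ∧ (Z j).card = k j) ∧
      ∀ j j', j ≠ j' → Disjoint (Z j) (Z j') := by
  have key : ∀ s : Finset J, ∃ Z : J → Finset ℕ, (∀ j ∈ s, Z j ⊆ Col (c j) ∧ (Z j).card = k j) ∧
      ∀ j ∈ s, ∀ j' ∈ s, j ≠ j' → Disjoint (Z j) (Z j') := by
    intro s
    induction s using Finset.induction_on with
    | empty => exact ⟨fun _ => ∅, by simp, by simp⟩
    | insert j0 s hj0 ih =>
      obtain ⟨Z, h1, h2⟩ := ih
      set used := (s.filter (fun i => c i = c j0)).biUnion Z with hused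
      have hucard : used.card ≤ ∑ i ∈ s.filter (fun i => c i = c j0), k i := by
        refine card_biUnion_le.trans (sum_le_sum ?_)
        intro i hi
        exact (h1 i (mem_filter.1 hi).1).2.le
      have hle : ∑ i ∈ s.filter (fun i => c i = c j0), k i + k j0 ≤ (Col (c j0)).card := by
        refine le_trans ?_ (hk (c j0))
        have hnot : j0 ∉ s.filter (fun i => c i = c j0) := fun h => hj0 (mem_filter.1 h).1
        rw [add_comm, ← sum_insert hnot]
        apply sum_le_sum_of_subset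
        intro i hi
        rcases mem_insert.1 hi with rfl | hi
        · simp
        · simp [(mem_filter.1 hi).2]
      have hav : k j0 ≤ (Col (c j0) \ used).card := by
        have := le_card_sdiff used (Col (c j0))
        omega
      obtain ⟨z, hz1, hz2⟩ := exists_subset_card_eq hav
      have hzs : ∀ j ∈ s, Disjoint z (Z j) := by
        intro j hj
        rw [disjoint_left]
        intro x hx hx'
        have hxc := mem_sdiff.1 (hz1 hx)
        by_cases hc : c j = c j0
        · exact hxc.2 (mem_biUnion.2 ⟨j, mem_filter.2 ⟨hj, hc⟩, hx'⟩)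
        · exact disjoint_left.1 (hdis _ _ hc) ((h1 j hj).1 hx') hxc.1
      refine ⟨Function.update Z j0 z, ?_, ?_⟩
      · intro j hj
        by_cases hjj : j = j0
        · subst hjj
          rw [Function.update_self]
          exact ⟨hz1.trans sdiff_subset, hz2⟩
        · rw [Function.update_of_ne hjj]
          exact h1 j ((mem_insert.1 hj).resolve_left hjj)
      · intro j hj j' hj' hne
        by_cases hjj : j = j0
        · subst hjj
          have hj'' : j' ≠ j := Ne.symm hne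
          rw [Function.update_self, Function.update_of_ne hj'']
          exact hzs j' ((mem_insert.1 hj').resolve_left hj'')
        · by_cases hjj' : j' = j0
          · subst hjj'
            rw [Function.update_self, Function.update_of_ne hjj]
            exact (hzs j ((mem_insert.1 hj).resolve_left hjj)).symm
          · rw [Function.update_of_ne hjj, Function.update_of_ne hjj']
            exact h2 j ((mem_insert.1 hj).resolve_left hjj) j'
              ((mem_insert.1 hj').resolve_left hjj') hne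
  obtain ⟨Z, h1, h2⟩ := key univ
  exact ⟨Z, fun j => h1 j (mem_univ _), fun j j' h => h2 j (mem_univ _) j' (mem_univ _) h⟩

section
variable {W : Type} [Fintype W] [DecidableEq W]

/-- colours of type `ω` -/
def Col (L : W → Finset ℕ) (ω : Finset W) : Finset ℕ :=
  (univ.biUnion L).filter (fun x => univ.filter (fun v => x ∈ L v) = ω)

theorem mem_Col {L : W → Finset ℕ} {ω : Finset W} {x : ℕ} :
    x ∈ Col L ω ↔ (∃ v, x ∈ L v) ∧ ∀ v, v ∈ ω ↔ x ∈ L v := by
  unfold Col
  simp only [mem_filter, mem_biUnion, mem_univ, true_and]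
  constructor
  · rintro ⟨h1, h2⟩
    refine ⟨h1, ?_⟩
    intro v
    rw [← h2, mem_filter]
    simp
  · rintro ⟨h1, h2⟩
    refine ⟨h1, ?_⟩
    ext v
    rw [mem_filter, h2 v]
    simp

theorem Col_disj (L : W → Finset ℕ) (ω ω' : Finset W) (h : ω ≠ ω') :
    Disjoint (Col L ω) (Col L ω') := by
  rw [disjoint_left]
  intro x hx hx'
  apply h
  ext v
  rw [(mem_Col.1 hx).2 v, (mem_Col.1 hx').2 v]

theorem Col_sum (L : W → Finset ℕ) (v : W) :
    ∑ ω, ((Col L ω).card : ℝ) * bi (v ∈ ω) = (L v).card := by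
  have h1 : (L v).card = ∑ ω : Finset W,
      ((L v).filter (fun x => univ.filter (fun u => x ∈ L u) = ω)).card :=
    card_eq_sum_card_fiberwise (fun x _ => mem_univ _)
  rw [h1]
  push_cast
  apply sum_congr rfl
  intro ω _
  by_cases hv : v ∈ ω
  · rw [bi_pos hv, mul_one]
    congr 2
    ext x
    rw [mem_Col, mem_filter]
    constructor
    · rintro ⟨h1, h2⟩
      refine ⟨(h2 v).1 hv, ?_⟩
      ext u
      rw [mem_filter, h2 u]
      simp
    · rintro ⟨h1, h2⟩
      refine ⟨⟨v, h1⟩, ?_⟩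
      intro u
      rw [← h2, mem_filter]
      simp
  · rw [bi_neg hv, mul_zero]
    symm
    rw [Nat.cast_eq_zero, card_eq_zero, filter_eq_empty_iff]
    intro x hx hω
    apply hv
    rw [← hω, mem_filter]
    exact ⟨mem_univ _, hx⟩

/-- strictness for all list assignments of total measure `4 - out` -/
def StrictG (H : SimpleGraph W) (out : W → ℕ) : Prop :=
  ∀ μ : Finset W → ℝ, (∀ ω, 0 ≤ μ ω) → (∀ v, (4 : ℝ) - out v ≤ ∑ ω, μ ω * bi (v ∈ ω)) →
    Strict H (fun ω => ω) μ univ

/-- integral colourings from lists of size at least `(4 - out - 1/N) m` -/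
def IntCol (H : SimpleGraph W) (out : W → ℕ) (N : ℕ) : Prop :=
  ∀ m : ℕ, N ≤ m → ∀ L : W → Finset ℕ, (∀ v, (4 : ℝ) * m - out v * m - m / N ≤ (L v).card) →
    ∃ f : W → Finset ℕ, (∀ v, f v ⊆ L v ∧ (f v).card = m) ∧
      ∀ u v, H.Adj u v → Disjoint (f u) (f v)

omit [Fintype W] [DecidableEq W] in
theorem intCol_mono {H : SimpleGraph W} {out : W → ℕ} {N N' : ℕ} (hN : 0 < N) (h : N ≤ N')
    (hI : IntCol H out N) : IntCol H out N' := by
  intro m hm L hL
  apply hI m (h.trans hm) L
  intro v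
  refine le_trans ?_ (hL v)
  have : (m : ℝ) / N' ≤ m / N := by
    apply div_le_div_of_nonneg_left (Nat.cast_nonneg _)
    · exact_mod_cast hN
    · exact_mod_cast h
  linarith

/-- one rounding step -/
theorem round_step {H : SimpleGraph W} (L : W → Finset ℕ) (m : ℕ) {J : Type} [Fintype J]
    (y : J → ℝ) (c : J → Finset W) (I : J → Finset W) (h0 : ∀ j, 0 ≤ y j)
    (hIc : ∀ j, I j ⊆ c j) (hind : ∀ j, ∀ u ∈ I j, ∀ v ∈ I j, ¬ H.Adj u v)
    (hcap : ∀ ω, ∑ j, y j * bi (c j = ω) ≤ (Col L ω).card)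
    (hbig : ∀ v, (m : ℝ) + Fintype.card J ≤ ∑ j, y j * bi (v ∈ I j)) :
    ∃ f : W → Finset ℕ, (∀ v, f v ⊆ L v ∧ (f v).card = m) ∧
      ∀ u v, H.Adj u v → Disjoint (f u) (f v) := by
  classical
  obtain ⟨Z, hZ1, hZ2⟩ := alloc c (Col L) (fun j => ⌊y j⌋₊) (Col_disj L) (by
    intro ω
    have h1 : ((∑ j ∈ univ.filter (fun j => c j = ω), ⌊y j⌋₊ : ℕ) : ℝ) ≤ (Col L ω).card := by
      refine le_trans ?_ (hcap ω)
      push_cast
      rw [sum_filter]
      apply sum_le_sum
      intro j _
      by_cases hj : c j = ω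
      · rw [if_pos hj, bi_pos hj, mul_one]
        exact Nat.floor_le (h0 j)
      · rw [if_neg hj, bi_neg hj, mul_zero]
    exact_mod_cast h1)
  let F : W → Finset ℕ := fun v => (univ.filter (fun j => v ∈ I j)).biUnion Z
  have hF : ∀ v x, x ∈ F v ↔ ∃ j, v ∈ I j ∧ x ∈ Z j := by
    intro v x
    simp only [F, mem_biUnion, mem_filter, mem_univ, true_and]
  have hFL : ∀ v, F v ⊆ L v := by
    intro v x hx
    obtain ⟨j, hj, hxj⟩ := (hF v x).1 hx
    exact ((mem_Col.1 ((hZ1 j).1 hxj)).2 v).1 (hIc j hj)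
  have hFcard : ∀ v, m ≤ (F v).card := by
    intro v
    have e1 : (F v).card = ∑ j ∈ univ.filter (fun j => v ∈ I j), ⌊y j⌋₊ := by
      simp only [F]
      rw [card_biUnion (fun i _ j _ hij => hZ2 i j hij)]
      exact sum_congr rfl (fun j _ => (hZ1 j).2)
    have h1 : (m : ℝ) ≤ (F v).card := by
      rw [e1]
      push_cast
      rw [sum_filter]
      have h2 : ∑ j, (y j * bi (v ∈ I j) - 1) ≤ ∑ j, (if v ∈ I j then (⌊y j⌋₊ : ℝ) else 0) := by
        apply sum_le_sum
        intro j _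
        by_cases hj : v ∈ I j
        · rw [if_pos hj, bi_pos hj, mul_one]
          have := Nat.lt_floor_add_one (y j)
          linarith
        · rw [if_neg hj, bi_neg hj]; norm_num
      rw [sum_sub_distrib, sum_const, card_univ, nsmul_eq_mul, mul_one] at h2
      have := hbig v
      linarith
    exact_mod_cast h1
  choose f hf1 hf2 using fun v => exists_subset_card_eq (hFcard v)
  refine ⟨f, fun v => ⟨(hf1 v).trans (hFL v), hf2 v⟩, ?_⟩
  intro u v huv
  rw [disjoint_left]
  intro x hx hx'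
  obtain ⟨j, hj, hxj⟩ := (hF u x).1 (hf1 u hx)
  obtain ⟨j', hj', hxj'⟩ := (hF v x).1 (hf1 v hx')
  by_cases hjj : j = j'
  · subst hjj
    exact hind j u hj v hj' huv
  · exact disjoint_left.1 (hZ2 j j' hjj) hxj hxj'

theorem exists_intCol (H : SimpleGraph W) (out : W → ℕ) (hS : StrictG H out) :
    ∃ N : ℕ, 0 < N ∧ IntCol H out N := by
  classical
  by_contra hcon
  push Not at hcon
  have hbad : ∀ n : ℕ, ∃ m : ℕ, n + 1 ≤ m ∧ ∃ L : W → Finset ℕ,
      (∀ v, (4 : ℝ) * m - out v * m - m / ((n : ℝ) + 1) ≤ (L v).card) ∧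
      ¬ ∃ f : W → Finset ℕ, (∀ v, f v ⊆ L v ∧ (f v).card = m) ∧
        ∀ u v, H.Adj u v → Disjoint (f u) (f v) := by
    intro n
    have := hcon (n + 1) (Nat.succ_pos n)
    unfold IntCol at this
    push Not at this
    obtain ⟨m, hm, L, hL, hno⟩ := this
    refine ⟨m, hm, L, ?_, ?_⟩
    · intro v
      have := hL v
      push_cast at this
      exact this
    · rintro ⟨f, hf1, hf2⟩
      obtain ⟨u, v, huv, hd⟩ := hno f hf1
      exact hd (hf2 u v huv)
  choose m hm L hL hno using hbad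
  have hmpos : ∀ n, (0 : ℝ) < m n := by
    intro n; have := hm n; exact_mod_cast (by omega : 0 < m n)
  let μs : ℕ → Finset W → ℝ := fun n ω => min (((Col (L n) ω).card : ℝ) / m n) 4
  have hμ0 : ∀ n ω, 0 ≤ μs n ω := fun n ω =>
    le_min (div_nonneg (Nat.cast_nonneg _) (hmpos n).le) (by norm_num)
  have hμ4 : ∀ n ω, μs n ω ≤ 4 := fun n ω => min_le_right _ _
  have hμsum : ∀ (n : ℕ) v, (4 : ℝ) - out v - 1 / ((n : ℝ) + 1) ≤ ∑ ω, μs n ω * bi (v ∈ ω) := by
    intro n v
    have hn1 : (0 : ℝ) < (n : ℝ) + 1 := by positivity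
    by_cases hbig : ∃ ω, v ∈ ω ∧ (4 : ℝ) ≤ ((Col (L n) ω).card : ℝ) / m n
    · obtain ⟨ω, hω, h4⟩ := hbig
      have h1 : μs n ω * bi (v ∈ ω) ≤ ∑ ω, μs n ω * bi (v ∈ ω) :=
        single_le_sum (f := fun ω => μs n ω * bi (v ∈ ω))
          (fun ω _ => mul_nonneg (hμ0 n ω) (bi_nonneg _)) (mem_univ ω)
      have h2 : μs n ω = 4 := min_eq_right h4
      rw [h2, bi_pos hω, mul_one] at h1
      have h3 : (0 : ℝ) ≤ out v := Nat.cast_nonneg _
      have h4 : 0 ≤ 1 / ((n : ℝ) + 1) := by positivity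
      linarith
    · push Not at hbig
      have h1 : ∑ ω, μs n ω * bi (v ∈ ω) = ((L n v).card : ℝ) / m n := by
        rw [← Col_sum, sum_div]
        apply sum_congr rfl
        intro ω _
        by_cases hω : v ∈ ω
        · simp only [μs]
          rw [min_eq_left (hbig ω hω).le, bi_pos hω]; ring
        · rw [bi_neg hω]; ring
      rw [h1, le_div_iff₀ (hmpos n)]
      have := hL n v
      have e : (4 - (out v : ℝ) - 1 / ((n : ℝ) + 1)) * m n =
          (4 : ℝ) * m n - out v * m n - m n / ((n : ℝ) + 1) := by ring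
      rw [e]; exact this
  -- convergent subsequence
  obtain ⟨μ, hμmem, φ, hφ, hlim⟩ := (isCompact_Icc :
    IsCompact (Set.Icc (fun _ : Finset W => (0 : ℝ)) (fun _ => 4))).tendsto_subseq
    (x := μs) (fun n => ⟨fun ω => hμ0 n ω, fun ω => hμ4 n ω⟩)
  have hlimω : ∀ ω, Tendsto (fun n => μs (φ n) ω) atTop (𝓝 (μ ω)) := by
    intro ω
    exact (tendsto_pi_nhds.1 hlim) ω
  have hμsum' : ∀ v, (4 : ℝ) - out v ≤ ∑ ω, μ ω * bi (v ∈ ω) := by
    intro v
    have h1 : Tendsto (fun n => ∑ ω, μs (φ n) ω * bi (v ∈ ω)) atTop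
        (𝓝 (∑ ω, μ ω * bi (v ∈ ω))) :=
      tendsto_finsetSum _ (fun ω _ => (hlimω ω).mul_const _)
    have h2 : Tendsto (fun n => (4 : ℝ) - out v - 1 / ((φ n : ℝ) + 1)) atTop
        (𝓝 ((4 : ℝ) - out v - 0)) := by
      apply Tendsto.sub tendsto_const_nhds
      exact (tendsto_one_div_add_atTop_nhds_zero_nat (𝕜 := ℝ)).comp hφ.tendsto_atTop
    have := le_of_tendsto_of_tendsto' h2 h1 (fun n => hμsum (φ n) v)
    linarith
  obtain ⟨t, ⟨J, _, y, c, I, p1, p2, p3, p4, p5⟩, ht⟩ := hS μ (fun ω => hμmem.1 ω) hμsum'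
  -- margin
  obtain ⟨d, hd0, hd⟩ : ∃ d : ℝ, 0 < d ∧ ∀ v, 1 + d ≤ t v := by
    by_cases hW : (univ : Finset W).Nonempty
    · obtain ⟨v0, hv0, hmin⟩ := (univ : Finset W).exists_min_image t hW
      exact ⟨t v0 - 1, by have := ht v0 hv0; linarith, fun v => by
        have := hmin v (mem_univ _); linarith⟩
    · rw [not_nonempty_iff_eq_empty] at hW
      refine ⟨1, one_pos, fun v => ?_⟩
      have : v ∈ (univ : Finset W) := mem_univ v
      rw [hW] at this
      simp at this
  set η : ℝ := d / (2 + d) with hη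
  have hη0 : 0 < η := by positivity
  have hη1 : (1 - η) * (1 + d) = 1 + η := by rw [hη]; field_simp; ring
  have hη2 : η < 1 := by rw [hη, div_lt_one (by positivity)]; linarith
  have hμnn : ∀ ω, 0 ≤ μ ω := fun ω => hμmem.1 ω
  have hev : ∀ᶠ n in atTop, ∀ ω, (1 - η) * μ ω ≤ μs (φ n) ω := by
    rw [eventually_all]
    intro ω
    rcases eq_or_lt_of_le (hμnn ω) with h | h
    · filter_upwards with n
      rw [← h, mul_zero]; exact hμ0 _ _
    · have : (1 - η) * μ ω < μ ω := by nlinarith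
      exact ((hlimω ω).eventually (lt_mem_nhds this)).mono (fun n hn => le_of_lt hn)
  have hev2 : ∀ᶠ n in atTop, (Fintype.card J : ℝ) ≤ η * m (φ n) := by
    have h1 : Tendsto (fun n => (m (φ n) : ℝ)) atTop atTop := by
      apply tendsto_natCast_atTop_atTop.comp
      apply tendsto_atTop_mono (f := fun n => φ n) _ hφ.tendsto_atTop
      intro n; have := hm (φ n); omega
    have h2 := h1.const_mul_atTop hη0
    exact h2.eventually_ge_atTop _
  obtain ⟨n, hn1, hn2⟩ := (hev.and hev2).exists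
  have hmn := hmpos (φ n)
  apply hno (φ n)
  apply round_step (L (φ n)) (m (φ n)) (fun j => (m (φ n) : ℝ) * ((1 - η) * y j)) c I
  · intro j
    exact mul_nonneg hmn.le (mul_nonneg (by linarith) (p1 j))
  · exact p3
  · exact p4
  · intro ω
    have e : ∑ j, (m (φ n) : ℝ) * ((1 - η) * y j) * bi (c j = ω) =
        m (φ n) * ((1 - η) * μ ω) := by
      rw [← p2 ω, mul_sum, mul_sum]
      apply sum_congr rfl
      intro j _; ring
    rw [e]
    have h1 := hn1 ω
    have h2 : μs (φ n) ω ≤ ((Col (L (φ n)) ω).card : ℝ) / m (φ n) := min_le_left _ _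
    have h3 := h1.trans h2
    rw [le_div_iff₀ hmn] at h3
    linarith
  · intro v
    have e : ∑ j, (m (φ n) : ℝ) * ((1 - η) * y j) * bi (v ∈ I j) =
        m (φ n) * ((1 - η) * t v) := by
      rw [← p5 v, mul_sum, mul_sum]
      apply sum_congr rfl
      intro j _; ring
    rw [e]
    have h1 : 1 + η ≤ (1 - η) * t v := by
      rw [← hη1]
      exact mul_le_mul_of_nonneg_left (hd v) (by linarith)
    have h2 := mul_le_mul_of_nonneg_left h1 hmn.le
    linarith

end

end Pool.Agent.N888.TF
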