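import Pool.Agent.N888.TF.Four

set_option autoImplicit false

/-!
# Sparse triangle-free planar pieces have strict fractional list colourings
-/

namespace Pool.Agent.N888.TF

open Finset
open Pool.Agent.TH455

theorem dg_single {V : Type} (G : SimpleGraph V) (v : V) : dg G v {v} = 0 := by
  unfold dg; rw [sum_singleton, gi_zero]

theorem dg_pair {V : Type} [DecidableEq V] (G : SimpleGraph V) {u v : V} (h : G.Adj u v) :
    dg G u {u, v} = 1 := by
  unfold dg
  rw [sum_pair h.ne, gi_zero, gi_one h]

theorem dg_pair' {V : Type} [DecidableEq V] (G : SimpleGraph V) {u v : V} (h : G.Adj u v) :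
    dg G v {u, v} = 1 := by
  unfold dg
  rw [sum_pair h.ne, gi_zero, gi_one h.symm]

/-- degree outside the four-cycle -/
theorem dg_out {V : Type} [DecidableEq V] (G : SimpleGraph V) (S : Finset V) {x b d : V}
    (hb : b ∈ S) (hd : d ∈ S) (hbd : b ≠ d) (h1 : G.Adj x b) (h2 : G.Adj x d) (R : Finset V)
    (hR : R ⊆ S) (hbR : b ∉ R) (hdR : d ∉ R) : dg G x R + 2 ≤ dg G x S := by
  have hsub : insert b (insert d R) ⊆ S := by
    intro z hz
    rcases mem_insert.1 hz with rfl | hz
    · exact hb
    · rcases mem_insert.1 hz with rfl | hz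
      · exact hd
      · exact hR hz
  have h3 : dg G x (insert b (insert d R)) = dg G x R + 2 := by
    unfold dg
    rw [sum_insert (by simp [hbd, hbR]), sum_insert hdR, gi_one h1, gi_one h2]
    ring
  rw [← h3]
  exact dg_mono G x hsub

theorem strict_thm {V Ω : Type} [Fintype V] [Fintype Ω] (G : SimpleGraph V)
    (hfree : G.CliqueFree 3) (hm : NoKMinor G) (A : Ω → Finset V) (μ : Ω → ℝ)
    (hμ : ∀ ω, 0 ≤ μ ω) (out : V → ℕ) (T : Finset V)
    (hell : ∀ v ∈ T, (4 : ℝ) - out v ≤ ∑ ω, μ ω * bi (v ∈ A ω))
    (hE : ∀ S ⊆ T, S.Nonempty → 1000 * ∑ v ∈ S, (dg G v S + 2 * out v) ≤ 4002 * S.card) :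
    Strict G A μ T := by
  classical
  by_contra hT
  have hout1 : ∀ v ∈ T, out v ≤ 2 := by
    intro v hv
    have := hE {v} (singleton_subset_iff.2 hv) (singleton_nonempty v)
    rw [sum_singleton, dg_single, card_singleton] at this
    omega
  have hout2 : ∀ u ∈ T, ∀ v ∈ T, G.Adj u v → out u + out v ≤ 3 := by
    intro u hu v hv huv
    have := hE {u, v} (by
      intro z hz
      rcases mem_insert.1 hz with rfl | hz
      · exact hu
      · rw [mem_singleton.1 hz]; exact hv) ⟨u, by simp⟩
    rw [sum_pair huv.ne, dg_pair G huv, dg_pair' G huv, card_pair huv.ne] at this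
    omega
  obtain ⟨S, hST, hSne, w, hwpos, h4, hPQ⟩ := crit hμ hfree out T hell hout1 hout2 hT
  obtain ⟨a, b, c, d, a', b', c', d', z, hC, hC', hzS, hdis, hz1, hz2⟩ := four_cycles G S out
    (fun a _ b _ c _ h1 h2 h3 => hfree {a, b, c} (SimpleGraph.is3Clique_triple_iff.mpr ⟨h1, h2, h3⟩))
    (not_minor5 hm _) (not_minor33 hm _) hSne h4 (hE S hST hSne) _ rfl
  set D := S.filter (fun v => out v = 0 ∧ dg G v S = 4) with hD
  have hDS : D ⊆ S := filter_subset _ _
  have hDp : ∀ v ∈ D, out v = 0 ∧ dg G v S = 4 := fun v hv => (mem_filter.1 hv).2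
  -- inequality for one four-cycle
  have key : ∀ a b c d : V, C4 G D a b c d →
      ∑ v ∈ S \ {a, b, c, d}, w v ≤ ∑ v ∈ ({a, b, c, d} : Finset V), w v := by
    intro a b c d hC
    have nab := hC.ab.ne
    have nbc := hC.bc.ne
    have ncd := hC.cd.ne
    have nda := hC.da.ne
    have nac := hC.ac
    have nbd := hC.bd
    have hP : ∀ u ∈ ({a, c} : Finset V), ∀ v ∈ ({a, c} : Finset V), ¬ G.Adj u v := by
      have hn : ¬ G.Adj a c := fun h =>
        hfree {a, b, c} (SimpleGraph.is3Clique_triple_iff.mpr ⟨hC.ab, h, hC.bc⟩)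
      intro u hu v hv
      rw [mem_insert, mem_singleton] at hu hv
      rcases hu with rfl | rfl <;> rcases hv with rfl | rfl
      · exact G.loopless.irrefl _
      · exact hn
      · exact fun h => hn h.symm
      · exact G.loopless.irrefl _
    have hQ : ∀ u ∈ ({b, d} : Finset V), ∀ v ∈ ({b, d} : Finset V), ¬ G.Adj u v := by
      have hn : ¬ G.Adj b d := fun h =>
        hfree {b, c, d} (SimpleGraph.is3Clique_triple_iff.mpr ⟨hC.bc, h, hC.cd⟩)
      intro u hu v hv
      rw [mem_insert, mem_singleton] at hu hv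
      rcases hu with rfl | rfl <;> rcases hv with rfl | rfl
      · exact G.loopless.irrefl _
      · exact hn
      · exact fun h => hn h.symm
      · exact G.loopless.irrefl _
    have hmem : ∀ x, x ∈ S \ {a, b, c, d} ↔ x ∈ S ∧ x ≠ a ∧ x ≠ b ∧ x ≠ c ∧ x ≠ d := by
      intro x
      simp only [mem_sdiff, mem_insert, mem_singleton, not_or]
    have hRS : S \ {a, b, c, d} ⊆ S := sdiff_subset
    have h := hPQ {a, c} {b, d} (S \ {a, b, c, d}) ⟨a, by simp⟩ ?_ ?_ hRS ?_ ?_ ?_ ?_ hP hQ ?_ ?_
    · have e : ∑ v ∈ ({a, b, c, d} : Finset V), w v = ∑ v ∈ ({a, c} : Finset V), w v +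
          ∑ v ∈ ({b, d} : Finset V), w v := by
        rw [sum_insert (by simp [nab, nac, nda.symm]), sum_insert (by simp [nbc, nbd]),
          sum_insert (by simp [ncd]), sum_singleton, sum_pair nac, sum_pair nbd]
        ring
      rw [e]; exact h
    · intro x hx
      rw [mem_insert, mem_singleton] at hx
      rcases hx with rfl | rfl
      · exact hDS hC.ha
      · exact hDS hC.hc
    · intro x hx
      rw [mem_insert, mem_singleton] at hx
      rcases hx with rfl | rfl
      · exact hDS hC.hb
      · exact hDS hC.hd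
    · rw [disjoint_left]
      intro x hx hx'
      rw [mem_insert, mem_singleton] at hx hx'
      rcases hx with rfl | rfl
      · rcases hx' with h | h
        · exact nab h
        · exact nda h.symm
      · rcases hx' with h | h
        · exact nbc h.symm
        · exact ncd h
    · rw [disjoint_left]
      intro x hx hx'
      rw [mem_insert, mem_singleton] at hx'
      have := (hmem x).1 hx
      tauto
    · rw [disjoint_left]
      intro x hx hx'
      rw [mem_insert, mem_singleton] at hx'
      have := (hmem x).1 hx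
      tauto
    · intro x hx
      by_cases hxR : x ∈ S \ {a, b, c, d}
      · exact Or.inl hxR
      · right
        rw [hmem] at hxR
        rw [mem_insert, mem_singleton, mem_insert, mem_singleton]
        tauto
    · intro x hx
      rw [mem_insert, mem_singleton] at hx
      rcases hx with rfl | rfl
      · refine ⟨(hDp _ hC.ha).1, ?_⟩
        have := dg_out G S (hDS hC.hb) (hDS hC.hd) nbd hC.ab hC.da.symm _ hRS
          (by rw [hmem]; tauto) (by rw [hmem]; tauto)
        have h2 := (hDp _ hC.ha).2
        omega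
      · refine ⟨(hDp _ hC.hc).1, ?_⟩
        have := dg_out G S (hDS hC.hb) (hDS hC.hd) nbd hC.bc.symm hC.cd _ hRS
          (by rw [hmem]; tauto) (by rw [hmem]; tauto)
        have h2 := (hDp _ hC.hc).2
        omega
    · intro x hx
      rw [mem_insert, mem_singleton] at hx
      rcases hx with rfl | rfl
      · refine ⟨(hDp _ hC.hb).1, ?_⟩
        have := dg_out G S (hDS hC.ha) (hDS hC.hc) nac hC.ab.symm hC.bc _ hRS
          (by rw [hmem]; tauto) (by rw [hmem]; tauto)
        have h2 := (hDp _ hC.hb).2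
        omega
      · refine ⟨(hDp _ hC.hd).1, ?_⟩
        have := dg_out G S (hDS hC.ha) (hDS hC.hc) nac hC.da hC.cd.symm _ hRS
          (by rw [hmem]; tauto) (by rw [hmem]; tauto)
        have h2 := (hDp _ hC.hd).2
        omega
  have k1 := key a b c d hC
  have k2 := key a' b' c' d' hC'
  set X := ({a, b, c, d} : Finset V) with hX
  set X' := ({a', b', c', d'} : Finset V) with hX'
  have hXS : X ⊆ S := by
    intro x hx
    simp only [hX, mem_insert, mem_singleton] at hx
    rcases hx with rfl | rfl | rfl | rfl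
    · exact hDS hC.ha
    · exact hDS hC.hb
    · exact hDS hC.hc
    · exact hDS hC.hd
  have hXS' : X' ⊆ S := by
    intro x hx
    simp only [hX', mem_insert, mem_singleton] at hx
    rcases hx with rfl | rfl | rfl | rfl
    · exact hDS hC'.ha
    · exact hDS hC'.hb
    · exact hDS hC'.hc
    · exact hDS hC'.hd
  have e1 : ∑ v ∈ S \ X, w v + ∑ v ∈ X, w v = ∑ v ∈ S, w v := sum_sdiff hXS
  have e2 : ∑ v ∈ S \ X', w v + ∑ v ∈ X', w v = ∑ v ∈ S, w v := sum_sdiff hXS'
  have e3 : ∑ v ∈ insert z (X ∪ X'), w v ≤ ∑ v ∈ S, w v := by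
    apply sum_le_sum_of_subset_of_nonneg
    · intro x hx
      rcases mem_insert.1 hx with rfl | hx
      · exact hzS
      · rcases mem_union.1 hx with hx | hx
        · exact hXS hx
        · exact hXS' hx
    · intro x hx _
      exact (hwpos x hx).le
  rw [sum_insert (by rw [mem_union, not_or]; exact ⟨hz1, hz2⟩), sum_union hdis] at e3
  have := hwpos z hzS
  linarith

end Pool.Agent.N888.TF
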